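import Pool.Agent.W788.BK.Basic

/-! Statements of the parts. -/

set_option autoImplicit false
set_option linter.unusedSectionVars false

open scoped BigOperators Matrix
open MeasureTheory

namespace Pool.Agent.W788.BK

open Pool.Agent.W788.MFP.Four (T e NN adj K ft Op q)

/-! ### Abstract part -/

/-- the Efron-Stein inequality -/
def S_ES : Prop := ∀ (m : Type) [Fintype m] [DecidableEq m] (μ : Measure ℝ)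
  [IsProbabilityMeasure μ] (F : (m → ℝ) → ℂ), Continuous F → (∃ C : ℝ, ∀ V, ‖F V‖ ≤ C) →
  ∫ V, ‖F V - ∫ U, F U ∂(PP m μ)‖ ^ 2 ∂(PP m μ) ≤
    ∑ y, ∫ V, ‖F V - F (Function.update V y 0)‖ ^ 2 ∂(PP m μ)

/-- factorization of one variable -/
def S_FAC : Prop := ∀ (m : Type) [Fintype m] [DecidableEq m] (μ : Measure ℝ)
  [IsProbabilityMeasure μ] (y : m) (h : ℝ → ℝ) (F : (m → ℝ) → ℂ), Continuous h → Continuous F →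
  (∀ (V : m → ℝ) (t : ℝ), F (Function.update V y t) = F V) →
  ∫ V, (h (V y) : ℂ) * F V ∂(PP m μ) = ((∫ s, h s ∂μ : ℝ) : ℂ) * ∫ V, F V ∂(PP m μ)

/-- the variance of a trace -/
def S_VAR : Prop := ∀ (n m : Type) [Fintype n] [DecidableEq n] [Fintype m] [DecidableEq m]
  (X0 : Matrix n n ℂ) (A : m → Matrix n n ℂ) (a v2 Q : ℝ), Adm X0 A a v2 Q →
  ∀ (μ : Measure ℝ) [IsProbabilityMeasure μ] (β η : ℝ), 0 < β → (∀ᵐ s ∂μ, |s| ≤ β) →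
  0 < η → η ≤ 1 → β ^ 2 * v2 ≤ 1 → ∀ Z : Matrix n n ℂ,
  ∫ V, ‖(RR X0 A η V * Z).trace - ∫ U, (RR X0 A η U * Z).trace ∂(PP m μ)‖ ^ 2 ∂(PP m μ) ≤
    4 * β ^ 2 * Q / η ^ 6 * hs Z

/-- the Dyson equation up to third order terms -/
def S_THIRD : Prop := ∀ (n m : Type) [Fintype n] [DecidableEq n] [Fintype m] [DecidableEq m]
  (X0 : Matrix n n ℂ) (A : m → Matrix n n ℂ) (a v2 Q : ℝ), Adm X0 A a v2 Q →
  ∀ (μ : Measure ℝ) [IsProbabilityMeasure μ] (β s2 η : ℝ), 0 < β → (∀ᵐ s ∂μ, |s| ≤ β) →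
  ∫ s, s ∂μ = 0 → ∫ s, s ^ 2 ∂μ = s2 → 0 < η → η ≤ 1 → β * a ≤ η →
  ∀ f g : n → ℂ, nsq f = 1 → nsq g = 1 →
  ‖star f ⬝ᵥ (((X0 - ((η : ℂ) * Complex.I) • (1 : Matrix n n ℂ)) * MM X0 A η μ -
    (s2 : ℂ) • SE X0 A η μ - 1) *ᵥ g)‖ ≤ 4 * β ^ 3 * a * v2 / η ^ 3

/-- the fluctuation of the self-energy -/
def S_FLUCT : Prop := ∀ (n m : Type) [Fintype n] [DecidableEq n] [Fintype m] [DecidableEq m]
  (X0 : Matrix n n ℂ) (A : m → Matrix n n ℂ) (a v2 Q : ℝ), Adm X0 A a v2 Q →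
  ∀ (μ : Measure ℝ) [IsProbabilityMeasure μ] (β η : ℝ), 0 < β → (∀ᵐ s ∂μ, |s| ≤ β) →
  0 < η → η ≤ 1 → β ^ 2 * v2 ≤ 1 → ∀ f g : n → ℂ, nsq f = 1 → nsq g = 1 →
  ‖star f ⬝ᵥ ((SE X0 A η μ - Psi A (MM X0 A η μ) * MM X0 A η μ) *ᵥ g)‖ ≤
    2 * β * Q * Real.sqrt v2 / η ^ 4

/-- concentration of the diagonal -/
def S_CONC : Prop := ∀ (n m : Type) [Fintype n] [DecidableEq n] [Fintype m] [DecidableEq m]
  (X0 : Matrix n n ℂ) (A : m → Matrix n n ℂ) (a v2 Q : ℝ), Adm X0 A a v2 Q →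
  ∀ (μ : Measure ℝ) [IsProbabilityMeasure μ] (β η D : ℝ), 0 < β → (∀ᵐ s ∂μ, |s| ≤ β) →
  0 < η → η ≤ 1 → β ^ 2 * v2 ≤ 1 → 0 < D → D ≤ 1 / 4 →
  2 * β ^ 2 / η ^ 2 * (Q + a ^ 2 / η ^ 2) ≤ D ^ 2 → ∀ w : n → ℂ,
  (PP m μ).real {V | 8 * (∫ U, (star w ⬝ᵥ (RR X0 A η U *ᵥ w)).im ∂(PP m μ)) <
    (star w ⬝ᵥ (RR X0 A η V *ᵥ w)).im} ≤ Real.exp (-(1 / (4 * D)))

/-! ### Concrete part -/

/-- `|H₀ - E - i δ|` -/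
noncomputable def JJ {d L : ℕ} [NeZero L] (E δ : ℝ) (k : T d L) : ℝ :=
  Real.sqrt ((adj k - E) ^ 2 + δ ^ 2)

/-- `cos (2 π q / L)` -/
noncomputable def cr {L : ℕ} [NeZero L] (q : ZMod L) : ℝ := (ZMod.stdAddChar q : ℂ).re

/-- momenta close to `0` or to `(π, …, π)` -/
def Low {d L : ℕ} [NeZero L] (θ : ℝ) (q : T d L) : Prop :=
  (∀ i, (1 - cr (q i)) / 2 ≤ θ ^ 2) ∨ (∀ i, (1 + cr (q i)) / 2 ≤ θ ^ 2)

open Classical in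
/-- indicator function of the other momenta -/
noncomputable def hi {d L : ℕ} [NeZero L] (θ : ℝ) (q : T d L) : ℝ := if Low θ q then 0 else 1

/-- the matrices `A_y` in the momentum representation -/
noncomputable def AA {d L : ℕ} [NeZero L] (E δ θ : ℝ) (y : T d L) :
    Matrix (T d L) (T d L) ℂ :=
  Matrix.of fun k p => (((NN d L)⁻¹ * hi θ (k - p) *
    ((Real.sqrt (JJ E δ k))⁻¹ * (Real.sqrt (JJ E δ p))⁻¹) : ℝ) : ℂ) * e (k - p) y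

/-- the matrix `X₀` in the momentum representation -/
noncomputable def D0 {d L : ℕ} [NeZero L] (E δ : ℝ) : Matrix (T d L) (T d L) ℂ :=
  Matrix.diagonal fun k => (((adj k - E) / JJ E δ k : ℝ) : ℂ)

/-- the vector belonging to the site `0` -/
noncomputable def w0 {d L : ℕ} [NeZero L] (E δ : ℝ) (k : T d L) : ℂ :=
  (((Real.sqrt (NN d L))⁻¹ * (Real.sqrt (JJ E δ k))⁻¹ : ℝ) : ℂ)

/-- the Fejer kernel, normalised to be one at zero -/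
noncomputable def Fe (M : ℕ) (a : ℝ) : ℝ :=
  ‖(M : ℂ)⁻¹ * ∑ j ∈ Finset.range M, Complex.exp (Complex.I * ((j * a : ℝ) : ℂ))‖ ^ 2

/-- the decay of the exponential sums -/
def S_OSC : Prop := ∀ (L : ℕ) [NeZero L] (z : ℂ), (1 + ‖z‖) ^ 3 ≤ (L : ℝ) ^ 2 →
  ‖∑ k : ZMod L, Complex.exp (Complex.I * ((2 * (z * ZMod.stdAddChar k).re : ℝ) : ℂ))‖ ≤
    10 * L / Real.sqrt (1 + ‖z‖)

/-- two shells, Fejer kernels -/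
def S_TWO : Prop := ∀ (d L : ℕ) [NeZero L], 3 ≤ d → ∀ θ : ℝ, 0 < θ → θ ≤ 1 → ∀ Q : T d L,
  ¬ Low θ Q → ∀ M M' : ℕ, 1 ≤ M' → M' ≤ M → (1 + 2 * (M : ℝ)) ^ 3 ≤ (L : ℝ) ^ 2 →
  ∀ E E' : ℝ, ∑ k : T d L, Fe M (adj k - E) * Fe M' (adj (k + Q) - E') ≤
    40000 * (1 + Real.log M) / (M * Real.sqrt (θ * M')) * NN d L

/-- two shells -/
def S_QB : Prop := ∃ C : ℝ, 0 < C ∧ ∀ (d L : ℕ) [NeZero L], 3 ≤ d → ∀ θ δ E : ℝ, 0 < θ →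
  θ ≤ 1 → 0 < δ → δ ≤ 1 / 2 → (1 + 4 / δ) ^ 3 ≤ (L : ℝ) ^ 2 → ∀ Q : T d L, ¬ Low θ Q →
  ∑ k : T d L, (JJ E δ k * JJ E δ (k + Q))⁻¹ ≤
    C * Real.log (1 / δ) ^ 2 / Real.sqrt (δ * θ) * NN d L

/-- the number of low momenta -/
def S_LOW : Prop := ∀ (d L : ℕ) [NeZero L] (θ : ℝ), 0 ≤ θ → θ ≤ 1 → 1 ≤ θ * L →
  ∑ Q : T d L, (1 - hi θ Q) ≤ 2 * (2 * θ) ^ d * NN d L

/-- the low frequency part of the potential -/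
def S_SUP : Prop := ∀ (d L : ℕ) [NeZero L] (μ : Measure ℝ) [IsProbabilityMeasure μ]
  (β θ τ : ℝ), 0 < β → (∀ᵐ s ∂μ, |s| ≤ β) → ∫ s, s ∂μ = 0 → 0 < τ →
  (PP (T d L) μ).real {V | ∃ x : T d L, τ < |∑ y, V y * K (fun Q => 1 - hi θ Q) (x - y)|} ≤
    2 * NN d L * Real.exp (-(τ ^ 2 * NN d L / (2 * β ^ 2 * ∑ Q : T d L, (1 - hi θ Q))))

/-- the concrete matrices are admissible -/
def S_ADM : Prop := ∀ (d L : ℕ) [NeZero L] (E δ θ g Q : ℝ), 0 < δ → 0 ≤ g → 0 ≤ Q →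
  ∑ k : T d L, (JJ E δ k)⁻¹ ≤ g * NN d L →
  (∀ P : T d L, ¬ Low θ P → ∑ k : T d L, (JJ E δ k * JJ E δ (k + P))⁻¹ ≤ Q * NN d L) →
  Adm (D0 E δ) (AA (d := d) (L := L) E δ θ)
    (g + (∑ P : T d L, (1 - hi θ P)) / (NN d L * δ)) (g / δ) Q

/-- translation invariance -/
def S_INV : Prop := ∀ (d L : ℕ) [NeZero L] (E δ θ η : ℝ) (μ : Measure ℝ)
  [IsProbabilityMeasure μ], 0 < δ → 0 < η → ∀ k p : T d L, k ≠ p →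
  MM (D0 E δ) (AA (d := d) (L := L) E δ θ) η μ k p = 0

/-- the solution of the self-consistent equation -/
def S_MB : Prop := ∀ (d L : ℕ) [NeZero L] (E δ θ η s2 g ε : ℝ) (M : T d L → ℂ), 0 < δ →
  0 < η → 0 ≤ s2 → ε ≤ 1 / 2 → (∀ k, 0 ≤ (M k).im) → (∀ k, ‖M k‖ ≤ η⁻¹) →
  (∀ E' : ℝ, ∑ k : T d L, (JJ E' (η * δ) k)⁻¹ ≤ g * NN d L) →
  s2 * (∑ P : T d L, (1 - hi θ P)) ≤ η ^ 2 * δ ^ 2 / 4 * NN d L →
  (∀ k, ‖((((adj k - E) / JJ E δ k : ℝ) : ℂ) - (η : ℂ) * Complex.I) * M k -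
    (s2 : ℂ) * (∑ p, (((NN d L)⁻¹ * hi θ (k - p) * (JJ E δ k * JJ E δ p)⁻¹ : ℝ) : ℂ) * M p) *
      M k - 1‖ ≤ ε) →
  ‖((NN d L : ℝ) : ℂ)⁻¹ * ∑ k, ((JJ E δ k : ℝ) : ℂ)⁻¹ * M k‖ ≤ 2 * g

/-- the value at one site -/
def S_SITE : Prop := ∀ (d L : ℕ) [NeZero L] (E δ θ η τ : ℝ), 0 < δ → 0 < η → 0 ≤ τ →
  ∀ V v r : T d L → ℝ, (∀ x, Op (fun k => adj k - E) v x = -(V x * v x) + r x) →
  (∀ x : T d L, |∑ y : T d L, V y * K (fun Q => 1 - hi θ Q) (x - y)| ≤ τ) →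
  v 0 ^ 2 ≤ 3 * (star (w0 (d := d) (L := L) E δ) ⬝ᵥ
      (RR (D0 E δ) (AA E δ θ) η V *ᵥ w0 E δ)).im / η *
    (δ⁻¹ * ∑ x, r x ^ 2 + δ⁻¹ * τ ^ 2 * ∑ x, v x ^ 2 + η ^ 2 * q (JJ E δ) v)

end Pool.Agent.W788.BK
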