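import Pool.Agent.W788.BK.Prob

/-! The numerical conditions and the probability estimate for Gaussian potentials. -/

set_option autoImplicit false

open Filter

namespace Pool.Agent.W788.BK.Num

/-- the numerical conditions -/
structure NumG (d : ℕ) (A1 CQ y : ℝ) : Prop where
  y1 : 1 ≤ y
  n1 : 6 * Real.exp (-(79 / 40) * y) ≤ 1
  n3 : (8 * d + 5) * Real.exp (17 / 8 * y) ≤ Real.exp (6 * y)
  n4 : 125 * Real.exp (237 / 40 * y) ≤ Real.exp (12 * y)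
  n5 : 2 * Real.exp (23 / 30 * y) ≤ Real.exp (6 * y)
  n6 : A1 * y * Real.exp (-(99 / 100) * y) ≤ Real.exp (-(3 / 20) * y)
  n7 : A1 * y * Real.exp (-(1 / 200) * y) ≤ 1
  n8 : 16 * A1 ^ 2 * y ^ 2 * Real.exp (-(109 / 200) * y) ≤ 1
  n9 : 64 * CQ * A1 * y ^ 3 * Real.exp (-(7 / 600) * y) ≤ 1
  n10 : 8 * Real.exp (-(3 / 100) * y) ≤ 1
  n11 : 32 * CQ * y ^ 2 * Real.exp (-(371 / 1200) * y) ≤ Real.exp (-(3 / 10) * y)
  n12 : 4 * A1 ^ 2 * y ^ 2 * Real.exp (-(69 / 50) * y) ≤ Real.exp (-(3 / 10) * y)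
  n13 : 4 * Real.exp (-(3 / 20) * y) ≤ 1
  n14 : 192 * A1 * y * Real.exp (-(1 / 200) * y) ≤ 1
  n15 : 2 * Real.exp (6 * y) ≤ Real.exp (7 * y)
  n16 : (12 * d + 12) * (Real.exp (y / 100) + y + 1) ≤ Real.exp (1 / 50 * y)
  n17 : (12 * d + 12) * (Real.exp (y / 100) + y + 1) ≤ 1 / 4 * Real.exp (3 / 100 * y)
  n18 : (12 * d + 12) * (Real.exp (y / 100) + y + 1) ≤ 1 / 4 * Real.exp (3 / 20 * y)
  n19 : (12 * d + 12) * (Real.exp (y / 100) + y + 1) ≤ 1 / 2 * Real.exp (1 / 50 * y)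

theorem numG (d : ℕ) (A1 CQ : ℝ) : ∀ᶠ y : ℝ in atTop, NumG d A1 CQ y := by
  filter_upwards [eventually_ge_atTop 1, ev2 6 (-(79 / 40)) 0 0 (by norm_num),
    ev2 (8 * d + 5) (17 / 8) 6 0 (by norm_num), ev2 125 (237 / 40) 12 0 (by norm_num),
    ev2 2 (23 / 30) 6 0 (by norm_num), ev2 A1 (-(99 / 100)) (-(3 / 20)) 1 (by norm_num),
    ev2 A1 (-(1 / 200)) 0 1 (by norm_num),
    ev2 (16 * A1 ^ 2) (-(109 / 200)) 0 2 (by norm_num),
    ev2 (64 * CQ * A1) (-(7 / 600)) 0 3 (by norm_num),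
    ev2 8 (-(3 / 100)) 0 0 (by norm_num),
    ev2 (32 * CQ) (-(371 / 1200)) (-(3 / 10)) 2 (by norm_num),
    ev2 (4 * A1 ^ 2) (-(69 / 50)) (-(3 / 10)) 2 (by norm_num),
    ev2 4 (-(3 / 20)) 0 0 (by norm_num),
    ev2 (192 * A1) (-(1 / 200)) 0 1 (by norm_num),
    ev2 2 6 7 0 (by norm_num),
    ev4 (12 * d + 12) 1 (1 / 50) (by norm_num) (by norm_num),
    ev4 (12 * d + 12) (1 / 4) (3 / 100) (by positivity) (by norm_num),
    ev4 (12 * d + 12) (1 / 4) (3 / 20) (by norm_num) (by norm_num),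
    ev4 (12 * d + 12) (1 / 2) (1 / 50) (by norm_num) (by norm_num)] with
    y h1 h2 h3 h4 h5 h6 h7 h8 h9 h10 h11 h12 h13 h14 h15 h16 h17 h18 h19
  simp only [pow_zero, mul_one, pow_one, zero_mul, Real.exp_zero] at h2 h3 h4 h5 h6 h7 h8 h9 h10 h13 h14 h15 h16
  constructor <;> first | assumption | linarith

theorem pg1 (d : ℕ) (A1 CQ y : ℝ) (hN : NumG d A1 CQ y) (Y ρ δ σ g1 : ℝ) (L p : ℕ)
    (hY : Y = Real.exp (y / 100)) (hρ : ρ = Real.exp Y) (hL : (L : ℝ) ≤ Real.exp (7 * y))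
    (hδ : δ⁻¹ = Real.exp (79 / 40 * y)) (hδ0 : 0 < δ)
    (hσ : σ = Real.exp (-1 * y)) (hg10 : 0 ≤ g1) (hg1 : g1 ≤ A1 * y)
    (hp : p = ⌈Real.exp (1 / 50 * y)⌉₊) :
    (3 * ρ) ^ d * ((8 * d / δ) * ((32 * p * g1 * 1 ^ 2 * σ ^ 2 / δ) ^ p *
      (L : ℝ) ^ d)) ≤ Real.exp (-Y - 2) := by
  obtain ⟨f1, f2⟩ := fac d y Y ρ L hρ hL
  have hy1 := hN.y1
  have hY0 : 0 < Y := by rw [hY]; positivity
  have hdY : 0 ≤ d * Y := by positivity
  have hdy : 0 ≤ d * y := by positivity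
  have hρ0 : 0 < ρ := by rw [hρ]; positivity
  have h3ρ0 : 0 ≤ (3 * ρ) ^ d := by positivity
  obtain ⟨X, hX⟩ : ∃ X : ℝ, X = 32 * p * g1 * 1 ^ 2 * σ ^ 2 / δ := ⟨_, rfl⟩
  rw [← hX]
  have hX0 : 0 ≤ X := by rw [hX]; positivity
  have hp1 : Real.exp (1 / 50 * y) ≤ p := by
    rw [hp]
    exact Nat.le_ceil _
  have hp2 : (p : ℝ) ≤ 2 * Real.exp (1 / 50 * y) := by
    have h1 := Nat.ceil_lt_add_one (show 0 ≤ Real.exp (1 / 50 * y) by positivity)
    rw [← hp] at h1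
    have h2 : (1 : ℝ) ≤ Real.exp (1 / 50 * y) := Real.one_le_exp (by linarith)
    linarith
  have hX1 : X ≤ 1 / 3 := by
    calc X = 32 * p * g1 * 1 ^ 2 * σ ^ 2 * δ⁻¹ := by rw [hX, div_eq_mul_inv]
      _ ≤ 32 * (2 * Real.exp (1 / 50 * y)) * (A1 * y) * 1 ^ 2 * Real.exp (-1 * y) ^ 2 *
          Real.exp (79 / 40 * y) := by
          rw [hδ, hσ]
          gcongr
      _ = 1 / 3 * (192 * A1 * y * (Real.exp (1 / 50 * y) * Real.exp (-1 * y) ^ 2 *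
          Real.exp (79 / 40 * y))) := by ring
      _ = 1 / 3 * (192 * A1 * y * Real.exp (-(1 / 200) * y)) := by
          rw [ex_pow, ex_mul, ex_mul]
          norm_num
      _ ≤ 1 / 3 := by
          have := hN.n14
          linarith
  have hX2 : X ≤ Real.exp (-1) := by
    have h1 := Real.exp_one_lt_three
    have h2 : (1 : ℝ) / 3 ≤ (Real.exp 1)⁻¹ := by
      rw [one_div]
      exact inv_anti₀ (Real.exp_pos _) h1.le
    rw [Real.exp_neg]
    linarith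
  have hXp : X ^ p ≤ Real.exp (-Real.exp (1 / 50 * y)) := by
    calc X ^ p ≤ (Real.exp (-1)) ^ p := pow_le_pow_left₀ hX0 hX2 p
      _ = Real.exp (-(p : ℝ)) := by
        rw [← Real.exp_nat_mul]
        congr 1
        ring
      _ ≤ _ := Real.exp_le_exp.2 (neg_le_neg hp1)
  have h8 : 8 * d / δ ≤ Real.exp (8 * d) * Real.exp (79 / 40 * y) := by
    rw [div_eq_mul_inv, hδ]
    have := Real.add_one_le_exp (8 * (d : ℝ))
    have h9 : 8 * (d : ℝ) ≤ Real.exp (8 * d) := by linarith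
    gcongr
  have h80 : 0 ≤ 8 * d / δ := by positivity
  calc (3 * ρ) ^ d * ((8 * d / δ) * (X ^ p * (L : ℝ) ^ d)) ≤
      Real.exp (d * (2 + Y)) * ((Real.exp (8 * d) * Real.exp (79 / 40 * y)) *
        (Real.exp (-Real.exp (1 / 50 * y)) * Real.exp (7 * d * y))) := by gcongr
    _ = Real.exp (d * (2 + Y) + ((8 * d + 79 / 40 * y) +
        (-Real.exp (1 / 50 * y) + 7 * d * y))) := by
        rw [← Real.exp_add, ← Real.exp_add, ← Real.exp_add, ← Real.exp_add]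
    _ ≤ Real.exp (-Y - 2) := by
        apply Real.exp_le_exp.2
        have h1 := hN.n16
        rw [← hY] at h1
        clear hX hX0 hX1 hX2 hXp h8 h80 hp1 hp2 f1 f2 h3ρ0
        linarith

theorem pg2 (d : ℕ) (A1 CQ y : ℝ) (hN : NumG d A1 CQ y)
    (Y ρ t β N cnt : ℝ) (L : ℕ)
    (hY : Y = Real.exp (y / 100)) (hρ : ρ = Real.exp Y) (hL : (L : ℝ) ≤ Real.exp (7 * y))
    (hNL : N = (L : ℝ) ^ d) (hN0 : 0 < N) (ht : t = Real.exp (-(17 / 8) * y))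
    (hβ : β = Real.exp (-(99 / 100) * y)) (hcnt1 : 1 ≤ cnt)
    (hcnt2 : cnt ≤ 2 * Real.exp (-(23 / 10) * y) * N) :
    (3 * ρ) ^ d * (2 * N * Real.exp (-(t ^ 2 * N / (2 * β ^ 2 * cnt)))) ≤
      Real.exp (-Y - 2) := by
  obtain ⟨f1, f2⟩ := fac d y Y ρ L hρ hL
  have hy1 := hN.y1
  have hY0 : 0 < Y := by rw [hY]; positivity
  have hdY : 0 ≤ d * Y := by positivity
  have hdy : 0 ≤ d * y := by positivity
  have hρ0 : 0 < ρ := by rw [hρ]; positivity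
  have hβ0 : 0 < β := by rw [hβ]; positivity
  have h3ρ0 : 0 ≤ (3 * ρ) ^ d := by positivity
  have h1 : 1 / 4 * Real.exp (3 / 100 * y) ≤ t ^ 2 * N / (2 * β ^ 2 * cnt) := by
    rw [le_div_iff₀ (by positivity)]
    calc 1 / 4 * Real.exp (3 / 100 * y) * (2 * β ^ 2 * cnt) ≤
        1 / 4 * Real.exp (3 / 100 * y) * (2 * (Real.exp (-(99 / 100) * y)) ^ 2 *
          (2 * Real.exp (-(23 / 10) * y) * N)) := by
          rw [hβ]
          gcongr
      _ = (Real.exp (3 / 100 * y) * Real.exp (-(99 / 100) * y) ^ 2 *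
          Real.exp (-(23 / 10) * y)) * N := by
          ring
      _ = t ^ 2 * N := by
          rw [ht, ex_pow, ex_pow, ex_mul, ex_mul]
          norm_num
      _ ≤ _ := le_rfl
  have h2 : N ≤ Real.exp (7 * d * y) := by
    rw [hNL]
    exact f2
  have h3 : (2 : ℝ) ≤ Real.exp 1 := by
    have he1 := Real.exp_one_gt_d9
    linarith
  calc (3 * ρ) ^ d * (2 * N * Real.exp (-(t ^ 2 * N / (2 * β ^ 2 * cnt)))) ≤
      Real.exp (d * (2 + Y)) * (Real.exp 1 * Real.exp (7 * d * y) *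
        Real.exp (-(1 / 4 * Real.exp (3 / 100 * y)))) := by gcongr
    _ = Real.exp (d * (2 + Y) + ((1 + 7 * d * y) +
        (-(1 / 4 * Real.exp (3 / 100 * y))))) := by
        rw [← Real.exp_add, ← Real.exp_add, ← Real.exp_add]
    _ ≤ Real.exp (-Y - 2) := by
        apply Real.exp_le_exp.2
        have h1 := hN.n17
        rw [← hY] at h1
        clear f1 f2 h3ρ0 h2 h3 hcnt1 hcnt2 hN0 hNL
        linarith

theorem pg3 (d : ℕ) (A1 CQ y : ℝ) (hN : NumG d A1 CQ y)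
    (Y ρ D : ℝ) (L M : ℕ)
    (hY : Y = Real.exp (y / 100)) (hρ : ρ = Real.exp Y) (hL : (L : ℝ) ≤ Real.exp (7 * y))
    (hD : D = Real.exp (-(3 / 20) * y))
    (hM2 : (2 * M + 1 : ℝ) ≤ (4 * d + 5) * Real.exp (17 / 8 * y)) :
    (3 * ρ) ^ d * ((2 * M + 1) * Real.exp (-(1 / (4 * D)))) ≤ Real.exp (-Y - 2) := by
  obtain ⟨f1, f2⟩ := fac d y Y ρ L hρ hL
  have hy1 := hN.y1
  have hY0 : 0 < Y := by rw [hY]; positivity
  have hdY : 0 ≤ d * Y := by positivity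
  have hdy : 0 ≤ d * y := by positivity
  have hρ0 : 0 < ρ := by rw [hρ]; positivity
  have h3ρ0 : 0 ≤ (3 * ρ) ^ d := by positivity
  have h1 : 1 / (4 * D) = 1 / 4 * Real.exp (3 / 20 * y) := by
    rw [hD, one_div, mul_inv, ex_inv]
    norm_num
  have h2 : (4 * (d : ℝ) + 5) ≤ Real.exp (4 * d + 5) := by
    have := Real.add_one_le_exp (4 * (d : ℝ) + 5)
    linarith
  rw [h1]
  calc (3 * ρ) ^ d * ((2 * M + 1) * Real.exp (-(1 / 4 * Real.exp (3 / 20 * y)))) ≤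
      Real.exp (d * (2 + Y)) * ((Real.exp (4 * d + 5) * Real.exp (17 / 8 * y)) *
        Real.exp (-(1 / 4 * Real.exp (3 / 20 * y)))) := by
        have h3 : (2 * M + 1 : ℝ) ≤ Real.exp (4 * d + 5) * Real.exp (17 / 8 * y) :=
          hM2.trans (mul_le_mul_of_nonneg_right h2 (Real.exp_pos _).le)
        gcongr
    _ = Real.exp (d * (2 + Y) + ((4 * d + 5 + 17 / 8 * y) +
        (-(1 / 4 * Real.exp (3 / 20 * y))))) := by
        rw [← Real.exp_add, ← Real.exp_add, ← Real.exp_add]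
    _ ≤ Real.exp (-Y - 2) := by
        apply Real.exp_le_exp.2
        have h1 := hN.n18
        rw [← hY] at h1
        clear f1 f2 h3ρ0 h2 hM2
        linarith

/-- the truncation -/
theorem pg5 (d : ℕ) (A1 CQ y : ℝ) (hN : NumG d A1 CQ y)
    (Y ρ N pt : ℝ) (L : ℕ)
    (hY : Y = Real.exp (y / 100)) (hρ : ρ = Real.exp Y) (hL : (L : ℝ) ≤ Real.exp (7 * y))
    (hNL : N = (L : ℝ) ^ d) (hN0 : 0 < N)
    (hpt : pt ≤ 2 * Real.exp (-(1 / 2 * Real.exp (1 / 50 * y)))) :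
    (3 * ρ) ^ d * (N * pt) ≤ Real.exp (-Y - 2) := by
  obtain ⟨f1, f2⟩ := fac d y Y ρ L hρ hL
  have hy1 := hN.y1
  have hY0 : 0 < Y := by rw [hY]; positivity
  have hdY : 0 ≤ d * Y := by positivity
  have hdy : 0 ≤ d * y := by positivity
  have hρ0 : 0 < ρ := by rw [hρ]; positivity
  have h3ρ0 : 0 ≤ (3 * ρ) ^ d := by positivity
  have h2 : N ≤ Real.exp (7 * d * y) := by
    rw [hNL]
    exact f2
  have h3 : (2 : ℝ) ≤ Real.exp 1 := by
    have he1 := Real.exp_one_gt_d9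
    linarith
  calc (3 * ρ) ^ d * (N * pt) ≤ (3 * ρ) ^ d * (N *
        (2 * Real.exp (-(1 / 2 * Real.exp (1 / 50 * y))))) := by gcongr
    _ ≤ Real.exp (d * (2 + Y)) * (Real.exp (7 * d * y) *
        (Real.exp 1 * Real.exp (-(1 / 2 * Real.exp (1 / 50 * y))))) := by gcongr
    _ = Real.exp (d * (2 + Y) + (7 * d * y +
        (1 + (-(1 / 2 * Real.exp (1 / 50 * y)))))) := by
        rw [← Real.exp_add, ← Real.exp_add, ← Real.exp_add]
    _ ≤ Real.exp (-Y - 2) := by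
        apply Real.exp_le_exp.2
        have h1 := hN.n19
        rw [← hY] at h1
        clear f1 f2 h3ρ0 h2 h3 hN0 hNL hpt
        linarith

/-- adding up -/
theorem pg4 (Y a1 a2 a3 a4 : ℝ) (h1 : a1 ≤ Real.exp (-Y - 2)) (h2 : a2 ≤ Real.exp (-Y - 2))
    (h3 : a3 ≤ Real.exp (-Y - 2)) (h6 : a4 ≤ Real.exp (-Y - 2)) :
    a1 + ((a2 + a3) + a4) ≤ Real.exp (-Y) := by
  have he1 := Real.exp_one_gt_d9
  have h3e : (4 : ℝ) ≤ Real.exp 2 := by
    have : Real.exp 2 = Real.exp 1 * Real.exp 1 := by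
      rw [← Real.exp_add]
      norm_num
    rw [this]
    nlinarith
  have h4 : Real.exp (-Y) = Real.exp 2 * Real.exp (-Y - 2) := by
    rw [← Real.exp_add]
    congr 1
    ring
  have h5 : 4 * Real.exp (-Y - 2) ≤ Real.exp 2 * Real.exp (-Y - 2) := by gcongr
  linarith

end Pool.Agent.W788.BK.Num
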