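import Pool.Agent.W788.BK.Lat

/-! Truncation of Gaussian potentials. -/

set_option autoImplicit false
set_option linter.unusedSectionVars false

open scoped BigOperators
open MeasureTheory ProbabilityTheory

namespace Pool.Agent.W788.BK.Trunc

open Pool.Agent.W788.MFP.Gm (γ)

/-- truncation at the level `Λ` -/
noncomputable def tr (Λ s : ℝ) : ℝ := if |s| ≤ Λ then s else 0

theorem tr_meas (Λ : ℝ) : Measurable (tr Λ) := by
  unfold tr
  exact Measurable.ite (measurableSet_le (by fun_prop) (by fun_prop)) measurable_id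
    measurable_const

theorem tr_le (Λ s : ℝ) (hΛ : 0 ≤ Λ) : |tr Λ s| ≤ Λ := by
  unfold tr
  split_ifs with h
  · exact h
  · simpa using hΛ

theorem tr_neg (Λ s : ℝ) : tr Λ (-s) = -tr Λ s := by
  unfold tr
  rw [abs_neg]
  split_ifs <;> simp

theorem tr_mean (Λ : ℝ) : ∫ s, tr Λ s ∂γ = 0 := by
  have h1 : ∫ s, tr Λ s ∂γ = ∫ s, tr Λ s ∂(γ.map fun s => -s) := by
    rw [Pool.Agent.W788.MF2.Dom.gauss_neg]
  rw [integral_map (by fun_prop) (tr_meas Λ).aestronglyMeasurable] at h1
  simp only [tr_neg, integral_neg] at h1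
  linarith

theorem tail (Λ : ℝ) (hΛ : 0 ≤ Λ) : γ.real {s | Λ < |s|} ≤ 2 * Real.exp (-(Λ ^ 2 / 2)) := by
  have h1 : γ.real {s | Λ ≤ id s} ≤ Real.exp (-Λ * Λ) * mgf id γ Λ :=
    measure_ge_le_exp_mul_mgf Λ hΛ (integrable_exp_mul_gaussianReal Λ)
  have h2 : mgf id γ Λ = Real.exp (Λ ^ 2 / 2) := by
    rw [mgf_id_gaussianReal]
    simp
  have h3 : Real.exp (-Λ * Λ) * mgf id γ Λ = Real.exp (-(Λ ^ 2 / 2)) := by
    rw [h2, ← Real.exp_add]
    congr 1
    ring
  rw [h3] at h1
  have h4 : γ.real {s | Λ ≤ -s} ≤ Real.exp (-(Λ ^ 2 / 2)) := by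
    have e1 : γ.real {s | Λ ≤ -s} = (γ.map fun s => -s).real {s | Λ ≤ id s} := by
      rw [map_measureReal_apply (by fun_prop) (measurableSet_le (by fun_prop) measurable_id)]
      rfl
    rw [e1, Pool.Agent.W788.MF2.Dom.gauss_neg]
    exact h1
  have hsub : {s : ℝ | Λ < |s|} ⊆ {s | Λ ≤ id s} ∪ {s | Λ ≤ -s} := by
    intro s hs
    simp only [Set.mem_ofPred_eq] at hs
    rcases lt_abs.1 hs with h | h
    · exact Or.inl h.le
    · exact Or.inr h.le
  refine (measureReal_mono hsub).trans ((measureReal_union_le _ _).trans ?_)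
  linarith

/-- comparison of the two product laws -/
theorem compare {ι : Type} [Fintype ι] (μ : Measure ℝ) [IsProbabilityMeasure μ] (Λ σ : ℝ)
    (G : Set (ι → ℝ)) (hG : MeasurableSet G) :
    (PP ι (μ.map fun s => σ * s)).real Gᶜ ≤
      (PP ι ((μ.map (tr Λ)).map fun s => σ * s)).real Gᶜ +
        Fintype.card ι * μ.real {s | Λ < |s|} := by
  have hT := tr_meas Λ
  have hTm : Measurable fun (V : ι → ℝ) y => tr Λ (V y) :=
    measurable_pi_iff.2 fun y => hT.comp (measurable_pi_apply y)
  have hsm : Measurable fun (V : ι → ℝ) y => σ * V y := by fun_prop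
  have hp1 : IsProbabilityMeasure (μ.map (tr Λ)) :=
    Measure.isProbabilityMeasure_map hT.aemeasurable
  have hp2 : IsProbabilityMeasure (μ.map fun s => σ * s) :=
    Measure.isProbabilityMeasure_map (by fun_prop)
  have hp3 : IsProbabilityMeasure ((μ.map (tr Λ)).map fun s => σ * s) :=
    Measure.isProbabilityMeasure_map (by fun_prop)
  have e1 : PP ι (μ.map fun s => σ * s) = (PP ι μ).map (fun (V : ι → ℝ) y => σ * V y) := by
    unfold PP
    rw [Measure.pi_map_pi (μ := fun _ : ι => μ) (f := fun _ (s : ℝ) => σ * s)]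
    intro i
    fun_prop
  have e2 : PP ι ((μ.map (tr Λ)).map fun s => σ * s) =
      (PP ι μ).map (fun (V : ι → ℝ) y => σ * tr Λ (V y)) := by
    unfold PP
    have : (μ.map (tr Λ)).map (fun s => σ * s) = μ.map (fun s => σ * tr Λ s) := by
      rw [Measure.map_map (by fun_prop) hT]
      rfl
    rw [this]
    have hh : Measurable fun s => σ * tr Λ s := hT.const_mul σ
    rw [Measure.pi_map_pi (μ := fun _ : ι => μ) (f := fun _ (s : ℝ) => σ * tr Λ s)]
    intro i
    exact hh.aemeasurable
  have hcm : Measurable fun (V : ι → ℝ) y => σ * tr Λ (V y) := hsm.comp hTm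
  rw [e1, e2, map_measureReal_apply hsm hG.compl, map_measureReal_apply hcm hG.compl]
  have hsub : (fun (V : ι → ℝ) y => σ * V y) ⁻¹' Gᶜ ⊆
      (fun (V : ι → ℝ) y => σ * tr Λ (V y)) ⁻¹' Gᶜ ∪
        ⋃ y : ι, {V : ι → ℝ | Λ < |V y|} := by
    intro V hV
    by_cases h : ∃ y, Λ < |V y|
    · exact Or.inr (Set.mem_iUnion.2 h)
    · left
      push Not at h
      have : (fun y => σ * tr Λ (V y)) = fun y => σ * V y := by
        funext y
        unfold tr
        rw [if_pos (h y)]
      simp only [Set.mem_preimage] at hV ⊢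
      rw [this]
      exact hV
  refine (measureReal_mono hsub).trans ((measureReal_union_le _ _).trans
    (add_le_add le_rfl ?_))
  refine (measureReal_iUnion_fintype_le _).trans ?_
  have e3 : ∀ y : ι, (PP ι μ).real {V : ι → ℝ | Λ < |V y|} = μ.real {s | Λ < |s|} := by
    intro y
    have h1 : (PP ι μ).map (fun V => V y) = μ := by
      unfold PP
      exact (measurePreserving_eval (fun _ : ι => μ) y).map_eq
    have h2 : (PP ι μ).real {V : ι → ℝ | Λ < |V y|} =
        ((PP ι μ).map (fun V => V y)).real {s | Λ < |s|} := by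
      rw [map_measureReal_apply (measurable_pi_apply y)
        (measurableSet_lt measurable_const (by fun_prop))]
      rfl
    rw [h2, h1]
  simp only [e3]
  rw [Finset.sum_const, Finset.card_univ, nsmul_eq_mul]

end Pool.Agent.W788.BK.Trunc
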