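import Pool.Agent.W788.BK.Flat1
import Pool.Agent.W788.BK.ParamG

/-! The final theorem for Gaussian potentials, from the parts. -/

set_option autoImplicit false
set_option linter.unusedSectionVars false

open scoped BigOperators
open MeasureTheory ProbabilityTheory

namespace Pool.Agent.W788.BK

open Pool.Agent.W788.LD.Main Pool.Agent.W788.LD.Spec
open Pool.Agent.H4R2.LO (Zd)

variable {d : ℕ}

theorem S_neg (u : Zd d → ℂ) (x : Zd d) : S (fun y => -u y) x = -S u x := by
  unfold S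
  rw [← Finset.sum_neg_distrib]
  exact Finset.sum_congr rfl fun i _ => by ring

/-- **beyond the kinetic scale**, Gaussian potentials -/
theorem finG (hTH : S_THIRD) (hFL : S_FLUCT) (hIN : S_INV) (hMB : S_MB) (hCO : S_CONC)
    (hSU : S_SUP) (hSI : S_SITE) (hQB : S_QB) (hLO : S_LOW) (hAD : S_ADM)
    (d : ℕ) (hd : 3 ≤ d) :
    ∃ sig0 K : ℝ, 0 < sig0 ∧ 0 < K ∧ ∀ σ : ℝ, 0 < σ → σ ≤ sig0 →
      ∃ G : Set (Zd d → ℝ), MeasurableSet G ∧
        1 - Real.exp (-σ ^ (-(1 / 100) : ℝ)) ≤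
          (Measure.infinitePi fun _ : Zd d => gaussianReal 0 1).real G ∧
        ∀ ξ ∈ G,
        (∀ (f : Zd d → ℂ) (B : Finset (Zd d)),
          (∀ a ∈ B, ‖a‖ ≤ Real.exp (σ ^ (-(1 / 100) : ℝ))) → (∀ a, a ∉ B → f a = 0) →
          ∀ m : Measure ℝ, IsFiniteMeasure m →
          (∀ z : ℂ, z.im ≠ 0 → ∃ u : Zd d → ℂ, (Summable fun x => ‖u x‖ ^ 2) ∧
            (∀ x, S u x + ((σ * ξ x : ℝ) : ℂ) * u x - z * u x = f x) ∧
            ∫ t : ℝ, ((t : ℂ) - z)⁻¹ ∂m = ∑' x, (starRingEnd ℂ) (f x) * u x) →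
          ∀ E s : ℝ, σ ^ (17 / 8 : ℝ) ≤ s → m.real (Set.Icc (E - s) (E + s)) ≤
            K * Real.log (1 / σ) * s * (∑ a ∈ B, ‖f a‖) ^ 2) ∧
        (∀ (E : ℝ) (u : Zd d → ℂ), (Summable fun x => ‖u x‖ ^ 2) →
          (∀ x, S u x + ((σ * ξ x : ℝ) : ℂ) * u x = (E : ℂ) * u x) →
          ∀ a : Zd d, ‖a‖ ≤ Real.exp (σ ^ (-(1 / 100) : ℝ)) →
          ‖u a‖ ^ 2 ≤ K * Real.log (1 / σ) * σ ^ (17 / 8 : ℝ) * ∑' x, ‖u x‖ ^ 2) := by
  obtain ⟨y0, h0⟩ := engineG hTH hFL hIN hMB hCO hSU hSI hQB hLO hAD d hd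
  obtain ⟨y1, hy1⟩ : ∃ y1, y1 = max y0 1 := ⟨_, rfl⟩
  have hC1 := C1_ge
  refine ⟨Real.exp (-y1), 20 * (192 * (C1 * (17 / 8))), Real.exp_pos _, by positivity, ?_⟩
  intro σ hσ hσ0
  obtain ⟨y, hy⟩ : ∃ y, y = Real.log (1 / σ) := ⟨_, rfl⟩
  have hlogσ : Real.log σ = -y := by
    rw [hy, one_div, Real.log_inv, neg_neg]
  have hyy1 : y1 ≤ y := by
    have h1 := Real.log_le_log hσ hσ0
    rw [Real.log_exp, hlogσ] at h1
    linarith
  have hyy0 : y0 ≤ y := le_trans (by rw [hy1]; exact le_max_left _ _) hyy1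
  have hyone : 1 ≤ y := le_trans (by rw [hy1]; exact le_max_right _ _) hyy1
  have e1 : σ ^ (-(1 / 100) : ℝ) = Real.exp (y / 100) := by
    rw [Real.rpow_def_of_pos hσ, hlogσ]
    congr 1
    ring
  have e2 : σ ^ (17 / 8 : ℝ) = Real.exp (-(17 / 8) * y) := by
    rw [Real.rpow_def_of_pos hσ, hlogσ]
    congr 1
    ring
  have e3 : Real.exp (-1 * y) = σ := by
    rw [neg_one_mul, ← hlogσ, Real.exp_log hσ]
  rw [e1, e2, ← hy]
  obtain ⟨G, hG, hP, hb⟩ := h0 y hyy0
  rw [e3] at hb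
  refine ⟨G, hG, hP, ?_⟩
  intro ξ hξ
  have ht1 : Real.exp (-(17 / 8) * y) ≤ 1 / 2 := by
    have h1 : Real.exp (-(17 / 8) * y) ≤ Real.exp (-1) := by
      apply Real.exp_le_exp.2
      linarith
    have h2 : Real.exp (-1) ≤ 1 / 2 := by
      rw [Real.exp_neg, one_div]
      apply inv_anti₀ (by norm_num)
      have := Real.exp_one_gt_d9
      linarith
    linarith
  obtain ⟨f1, f2⟩ := flat1 σ _ (Real.exp (-(17 / 8) * y)) _ (Real.exp_pos _) ht1
    (by positivity) _ (hb _ hξ) (fun x => -(σ * ξ x)) 0 (fun x => by ring)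
  constructor
  · intro f B hB hfB m hm hres E s hs
    have hneg : Measurable fun t : ℝ => -t := measurable_neg
    have hm' : IsFiniteMeasure (m.map fun t => -t) := by infer_instance
    have h1 := f1 f B hB hfB (m.map fun t => -t) hm' (by
      intro z hz
      obtain ⟨u, hu, heq, hint⟩ := hres (-z) (by simpa using hz)
      refine ⟨fun x => -u x, by simpa using hu, ?_, ?_⟩
      · intro x
        have h2 := heq x
        rw [S_neg]
        push_cast at h2 ⊢
        linear_combination h2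
      · rw [integral_map hneg.aemeasurable]
        · have h3 : ∀ t : ℝ, (((-t : ℝ) : ℂ) - z)⁻¹ = -((t : ℂ) - (-z))⁻¹ := by
            intro t
            rw [← inv_neg]
            congr 1
            push_cast
            ring
          simp only [h3]
          rw [integral_neg, hint, ← tsum_neg]
          refine tsum_congr fun x => ?_
          ring
        · exact (by fun_prop : Measurable fun t : ℝ => ((t : ℂ) - z)⁻¹).aestronglyMeasurable)
      (-E) s hs
    have h2 : (m.map fun t => -t).real (Set.Icc (-E - s) (-E + s)) =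
        m.real (Set.Icc (E - s) (E + s)) := by
      rw [map_measureReal_apply hneg measurableSet_Icc]
      congr 1
      ext t
      simp only [Set.mem_preimage, Set.mem_Icc]
      constructor
      · rintro ⟨h3, h4⟩
        constructor <;> linarith
      · rintro ⟨h3, h4⟩
        constructor <;> linarith
    rw [h2] at h1
    refine h1.trans (le_of_eq ?_)
    ring
  · intro E u hu heq a ha
    refine (f2 (-E) u hu (fun x => ?_) a ha).trans ?_
    · have h2 := heq x
      push_cast at h2 ⊢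
      linear_combination -h2
    · have h3 : 0 ≤ ∑' x, ‖u x‖ ^ 2 := tsum_nonneg fun x => by positivity
      apply mul_le_mul_of_nonneg_right _ h3
      have h4 : 0 ≤ C1 * y * Real.exp (-(17 / 8) * y) := by positivity
      linarith

end Pool.Agent.W788.BK
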