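import Pool.Agent.W788.BK.Flat1

/-! The final theorem, from the parts. -/

set_option autoImplicit false
set_option linter.unusedSectionVars false

open scoped BigOperators
open MeasureTheory

namespace Pool.Agent.W788.BK

open Pool.Agent.W788.LD.Main Pool.Agent.W788.LD.Spec
open Pool.Agent.H4R2.LO (Zd)

variable {d : ℕ}

/-- **beyond the kinetic scale** -/
theorem fin (hTH : S_THIRD) (hFL : S_FLUCT) (hIN : S_INV) (hMB : S_MB) (hCO : S_CONC)
    (hSU : S_SUP) (hSI : S_SITE) (hQB : S_QB) (hLO : S_LOW) (hAD : S_ADM)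
    (d : ℕ) (hd : 3 ≤ d) (b : ℝ) (hb : 0 < b) :
    ∃ lam0 K : ℝ, 0 < lam0 ∧ 0 < K ∧ ∀ (μ : Measure ℝ), IsProbabilityMeasure μ →
      (∀ᵐ s ∂μ, |s| ≤ b) → ∀ lam : ℝ, 0 < lam → lam ≤ lam0 →
      ∃ G : Set (Zd d → ℝ), MeasurableSet G ∧
        1 - Real.exp (-lam ^ (-(1 / 100) : ℝ)) ≤
          (Measure.infinitePi fun _ : Zd d => μ).real G ∧
        ∀ ω ∈ G,
        (∀ (f : Zd d → ℂ) (B : Finset (Zd d)),
          (∀ a ∈ B, ‖a‖ ≤ Real.exp (lam ^ (-(1 / 100) : ℝ))) → (∀ a, a ∉ B → f a = 0) →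
          ∀ m : Measure ℝ, IsFiniteMeasure m →
          (∀ z : ℂ, z.im ≠ 0 → ∃ u : Zd d → ℂ, (Summable fun x => ‖u x‖ ^ 2) ∧
            (∀ x, -S u x + ((2 * d + lam * ω x : ℝ) : ℂ) * u x - z * u x = f x) ∧
            ∫ t : ℝ, ((t : ℂ) - z)⁻¹ ∂m = ∑' x, (starRingEnd ℂ) (f x) * u x) →
          ∀ E s : ℝ, lam ^ (17 / 8 : ℝ) ≤ s → m.real (Set.Icc (E - s) (E + s)) ≤
            K * Real.log (1 / lam) * s * (∑ a ∈ B, ‖f a‖) ^ 2) ∧
        (∀ (E : ℝ) (u : Zd d → ℂ), (Summable fun x => ‖u x‖ ^ 2) →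
          (∀ x, -S u x + ((2 * d + lam * ω x : ℝ) : ℂ) * u x = (E : ℂ) * u x) →
          ∀ a : Zd d, ‖a‖ ≤ Real.exp (lam ^ (-(1 / 100) : ℝ)) →
          ‖u a‖ ^ 2 ≤ K * Real.log (1 / lam) * lam ^ (17 / 8 : ℝ) * ∑' x, ‖u x‖ ^ 2) := by
  obtain ⟨y0, h0⟩ := engine hTH hFL hIN hMB hCO hSU hSI hQB hLO hAD d hd (2 * b) (by linarith)
  obtain ⟨y1, hy1⟩ : ∃ y1, y1 = max y0 1 := ⟨_, rfl⟩
  have hC1 := C1_ge
  refine ⟨Real.exp (-y1), 20 * (192 * (C1 * (17 / 8))), Real.exp_pos _, by positivity, ?_⟩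
  intro μ hμ hμb lam hlam hlam0
  obtain ⟨y, hy⟩ : ∃ y, y = Real.log (1 / lam) := ⟨_, rfl⟩
  have hloglam : Real.log lam = -y := by
    rw [hy, one_div, Real.log_inv, neg_neg]
  have hyy1 : y1 ≤ y := by
    have h1 := Real.log_le_log hlam hlam0
    rw [Real.log_exp, hloglam] at h1
    linarith
  have hyy0 : y0 ≤ y := le_trans (by rw [hy1]; exact le_max_left _ _) hyy1
  have hyone : 1 ≤ y := le_trans (by rw [hy1]; exact le_max_right _ _) hyy1
  have e1 : lam ^ (-(1 / 100) : ℝ) = Real.exp (y / 100) := by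
    rw [Real.rpow_def_of_pos hlam, hloglam]
    congr 1
    ring
  have e2 : lam ^ (17 / 8 : ℝ) = Real.exp (-(17 / 8) * y) := by
    rw [Real.rpow_def_of_pos hlam, hloglam]
    congr 1
    ring
  have e3 : Real.exp (-1 * y) = lam := by
    rw [neg_one_mul, ← hloglam, Real.exp_log hlam]
  rw [e1, e2, ← hy]
  -- the centred law
  obtain ⟨M0, hM0⟩ : ∃ M0, M0 = ∫ s, s ∂μ := ⟨_, rfl⟩
  have hint : Integrable (fun s : ℝ => s) μ := by
    refine Integrable.of_bound (C := b) measurable_id.aestronglyMeasurable ?_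
    filter_upwards [hμb] with s hs
    rw [Real.norm_eq_abs]
    exact hs
  have hM0b : |M0| ≤ b := by
    rw [hM0, ← Real.norm_eq_abs]
    have h1 := norm_integral_le_of_norm_le_const (μ := μ) (f := fun s : ℝ => s) (C := b) (by
      filter_upwards [hμb] with s hs
      rw [Real.norm_eq_abs]
      exact hs)
    rw [probReal_univ, mul_one] at h1
    exact h1
  have hmm : Measurable fun s : ℝ => M0 - s := by fun_prop
  have hνp : IsProbabilityMeasure (μ.map fun s => M0 - s) :=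
    Measure.isProbabilityMeasure_map hmm.aemeasurable
  have hνb : ∀ᵐ s ∂(μ.map fun s => M0 - s), |s| ≤ 2 * b := by
    rw [ae_map_iff hmm.aemeasurable (measurableSet_le (by fun_prop) (by fun_prop))]
    filter_upwards [hμb] with s hs
    have h1 := abs_sub M0 s
    linarith
  have hν0 : ∫ s, s ∂(μ.map fun s => M0 - s) = 0 := by
    rw [integral_map hmm.aemeasurable (by fun_prop), integral_sub (integrable_const _) hint,
      integral_const, probReal_univ, one_smul, hM0, sub_self]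
  obtain ⟨G, hG, hP, hb⟩ := h0 y hyy0 _ hνp hνb hν0
  rw [e3] at hb
  have hTm : Measurable (fun (ω : Zd d → ℝ) x => M0 - ω x) := by fun_prop
  have hlaw : (Measure.infinitePi fun _ : Zd d => μ).map (fun ω x => M0 - ω x) =
      Measure.infinitePi fun _ : Zd d => μ.map fun s => M0 - s :=
    Measure.infinitePi_map_pi (μ := fun _ : Zd d => μ)
      (f := fun _ (s : ℝ) => M0 - s) (fun _ => by fun_prop)
  refine ⟨(fun ω x => M0 - ω x) ⁻¹' G, hTm hG, ?_, ?_⟩
  · have h1 : (Measure.infinitePi fun _ : Zd d => μ).real ((fun ω x => M0 - ω x) ⁻¹' G) =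
        (Measure.infinitePi fun _ : Zd d => μ.map fun s => M0 - s).real G := by
      rw [← hlaw, map_measureReal_apply hTm hG]
    rw [h1]
    exact hP
  · intro ω hω
    have ht1 : Real.exp (-(17 / 8) * y) ≤ 1 / 2 := by
      have h1 : Real.exp (-(17 / 8) * y) ≤ Real.exp (-1) := by
        apply Real.exp_le_exp.2
        linarith
      have h2 : Real.exp (-1) ≤ 1 / 2 := by
        rw [Real.exp_neg, one_div]
        apply inv_anti₀ (by norm_num)
        have := Real.exp_one_gt_d9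
        linarith
      linarith
    obtain ⟨f1, f2⟩ := flat1 lam _ (Real.exp (-(17 / 8) * y)) _ (Real.exp_pos _) ht1
      (by positivity) _ (hb _ hω) (fun x => 2 * d + lam * ω x) (2 * d + lam * M0)
      (fun x => by ring)
    constructor
    · intro f B hB hfB m hm hres E s hs
      refine (f1 f B hB hfB m hm hres E s hs).trans (le_of_eq ?_)
      ring
    · intro E u hu heq a ha
      refine (f2 E u hu heq a ha).trans ?_
      have h3 : 0 ≤ ∑' x, ‖u x‖ ^ 2 := tsum_nonneg fun x => by positivity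
      apply mul_le_mul_of_nonneg_right _ h3
      have h4 : 0 ≤ C1 * y * Real.exp (-(17 / 8) * y) := by positivity
      linarith

end Pool.Agent.W788.BK
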