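import Pool.Agent.W788.LD.Uni

/-! Scaling of the uniform law. -/

set_option autoImplicit false

open scoped BigOperators ENNReal
open MeasureTheory

namespace Pool.Agent.W788.BK.Unif

open Pool.Agent.W788.LD.Uni

/-- the uniform law on `[-c, c]` is the image of that on `[-1, 1]` -/
theorem unif_scale (c : ℝ) (hc : 0 < c) : (unif c).map (fun s => s / c) = unif 1 := by
  have hm : Measurable fun s : ℝ => s / c := by fun_prop
  unfold unif
  rw [Measure.map_smul]
  have h1 : (volume.restrict (Set.Icc (-c) c)).map (fun s : ℝ => s / c) =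
      ENNReal.ofReal c • volume.restrict (Set.Icc (-1) 1) := by
    have h2 : Set.Icc (-c) c = (fun s : ℝ => s / c) ⁻¹' Set.Icc (-1) 1 := by
      ext s
      simp only [Set.mem_Icc, Set.mem_preimage]
      rw [le_div_iff₀ hc, div_le_iff₀ hc]
      constructor
      · rintro ⟨h3, h4⟩
        constructor <;> linarith
      · rintro ⟨h3, h4⟩
        constructor <;> linarith
    rw [h2, ← Measure.restrict_map hm measurableSet_Icc]
    have h3 : (volume : Measure ℝ).map (fun s : ℝ => s / c) = ENNReal.ofReal c • volume := by
      have h4 : (fun s : ℝ => s / c) = fun s => c⁻¹ * s := by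
        funext s
        rw [div_eq_mul_inv, mul_comm]
      rw [h4, Real.map_volume_mul_left (inv_ne_zero hc.ne'), inv_inv, abs_of_pos hc]
    rw [h3, Measure.restrict_smul]
  rw [h1, smul_smul, ← ENNReal.ofReal_mul (by positivity)]
  congr 2
  field_simp

end Pool.Agent.W788.BK.Unif
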