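import Pool.Agent.W788.BK.Defs

/-! Basic facts about the resolvent. -/

set_option autoImplicit false
set_option linter.unusedSectionVars false

open scoped BigOperators Matrix
open MeasureTheory

namespace Pool.Agent.W788.BK

variable {n m : Type} [Fintype n] [DecidableEq n] [Fintype m] [DecidableEq m]

theorem nsq_nonneg (w : n → ℂ) : 0 ≤ nsq w := Finset.sum_nonneg fun _ _ => by positivity

theorem hs_nonneg (W : Matrix n n ℂ) : 0 ≤ hs W :=
  Finset.sum_nonneg fun _ _ => Finset.sum_nonneg fun _ _ => by positivity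

theorem nsq_eq (w : n → ℂ) : ((nsq w : ℝ) : ℂ) = star w ⬝ᵥ w := by
  unfold nsq dotProduct
  push_cast
  refine Finset.sum_congr rfl fun i _ => ?_
  rw [Pi.star_apply, RCLike.star_def, ← Complex.normSq_eq_conj_mul_self,
    Complex.normSq_eq_norm_sq]
  push_cast
  rfl

theorem nsq_star (w : n → ℂ) : nsq (star w) = nsq w := by
  unfold nsq
  exact Finset.sum_congr rfl fun i _ => by rw [Pi.star_apply, norm_star]

theorem nsq_smul (c : ℂ) (w : n → ℂ) : nsq (c • w) = ‖c‖ ^ 2 * nsq w := by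
  unfold nsq
  rw [Finset.mul_sum]
  exact Finset.sum_congr rfl fun i _ => by rw [Pi.smul_apply, smul_eq_mul, norm_mul, mul_pow]

theorem nsq_eq_zero (w : n → ℂ) (h : nsq w = 0) : w = 0 := by
  unfold nsq at h
  rw [Finset.sum_eq_zero_iff_of_nonneg fun _ _ => by positivity] at h
  funext i
  have := h i (Finset.mem_univ i)
  simpa using this

/-- Cauchy-Schwarz -/
theorem cs (u w : n → ℂ) : ‖u ⬝ᵥ w‖ ^ 2 ≤ nsq u * nsq w := by
  have h1 : ‖u ⬝ᵥ w‖ ≤ ∑ i, ‖u i‖ * ‖w i‖ := by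
    unfold dotProduct
    refine (norm_sum_le _ _).trans (Finset.sum_le_sum fun i _ => ?_)
    rw [norm_mul]
  calc ‖u ⬝ᵥ w‖ ^ 2 ≤ (∑ i, ‖u i‖ * ‖w i‖) ^ 2 := pow_le_pow_left₀ (norm_nonneg _) h1 2
    _ ≤ (∑ i, ‖u i‖ ^ 2) * ∑ i, ‖w i‖ ^ 2 := Finset.sum_mul_sq_le_sq_mul_sq _ _ _

theorem cs_star (u w : n → ℂ) : ‖star u ⬝ᵥ w‖ ^ 2 ≤ nsq u * nsq w := by
  have := cs (star u) w
  rwa [nsq_star] at this

theorem cs_norm (u w : n → ℂ) : ‖star u ⬝ᵥ w‖ ≤ Real.sqrt (nsq u) * Real.sqrt (nsq w) := by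
  rw [← Real.sqrt_mul (nsq_nonneg u)]
  exact Real.le_sqrt_of_sq_le (cs_star u w)

/-- the adjoint -/
theorem adjoint (B : Matrix n n ℂ) (u w : n → ℂ) :
    star u ⬝ᵥ (B *ᵥ w) = star (Bᴴ *ᵥ u) ⬝ᵥ w := by
  rw [Matrix.star_mulVec, Matrix.conjTranspose_conjTranspose, Matrix.dotProduct_mulVec]

theorem herm {X : Matrix n n ℂ} (hX : X.IsHermitian) (u w : n → ℂ) :
    star u ⬝ᵥ (X *ᵥ w) = star (X *ᵥ u) ⬝ᵥ w := by
  rw [adjoint, hX.eq]

/-- the trace and rank one operators -/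
theorem trace_rank (B : Matrix n n ℂ) (u w : n → ℂ) :
    (B * Matrix.vecMulVec u (star w)).trace = star w ⬝ᵥ (B *ᵥ u) := by
  rw [Matrix.mul_vecMulVec, Matrix.trace_vecMulVec, dotProduct_comm]

theorem hs_rank (u w : n → ℂ) : hs (Matrix.vecMulVec u (star w)) = nsq u * nsq w := by
  unfold hs nsq Matrix.vecMulVec
  rw [Finset.sum_mul_sum]
  refine Finset.sum_congr rfl fun i _ => Finset.sum_congr rfl fun j _ => ?_
  simp only [Matrix.of_apply, Pi.star_apply]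
  rw [norm_mul, norm_star, mul_pow]

/-- the matrix `X` is Hermitian -/
theorem XX_herm {X0 : Matrix n n ℂ} {A : m → Matrix n n ℂ} (h0 : X0.IsHermitian)
    (hA : ∀ y, (A y).IsHermitian) (V : m → ℝ) : (XX X0 A V).IsHermitian := by
  unfold XX Matrix.IsHermitian
  rw [Matrix.conjTranspose_add, Matrix.conjTranspose_sum, h0.eq]
  congr 1
  refine Finset.sum_congr rfl fun y _ => ?_
  rw [Matrix.conjTranspose_smul, (hA y).eq]
  simp

/-- the norm of `(X - i η) w` -/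
theorem nsq_shift {X : Matrix n n ℂ} (hX : X.IsHermitian) (η : ℝ) (w : n → ℂ) :
    nsq ((X - ((η : ℂ) * Complex.I) • (1 : Matrix n n ℂ)) *ᵥ w) =
      nsq (X *ᵥ w) + η ^ 2 * nsq w := by
  have h1 : (X - ((η : ℂ) * Complex.I) • (1 : Matrix n n ℂ)) *ᵥ w =
      X *ᵥ w - ((η : ℂ) * Complex.I) • w := by
    rw [Matrix.sub_mulVec, Matrix.smul_mulVec, Matrix.one_mulVec]
  have h2 : (((nsq ((X - ((η : ℂ) * Complex.I) • (1 : Matrix n n ℂ)) *ᵥ w) : ℝ)) : ℂ) =
      ((nsq (X *ᵥ w) + η ^ 2 * nsq w : ℝ) : ℂ) := by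
    rw [nsq_eq, h1]
    push_cast
    rw [nsq_eq, nsq_eq, star_sub, star_smul, sub_dotProduct, dotProduct_sub, dotProduct_sub,
      smul_dotProduct, smul_dotProduct, dotProduct_smul, dotProduct_smul, ← herm hX w w]
    have h3 : star ((η : ℂ) * Complex.I) = -((η : ℂ) * Complex.I) := by
      rw [star_mul']
      simp
    rw [h3]
    simp only [smul_eq_mul]
    have h4 : Complex.I * Complex.I = -1 := Complex.I_mul_I
    linear_combination (-(η : ℂ) ^ 2 * (star w ⬝ᵥ w)) * h4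
  exact_mod_cast h2

/-- the matrix `X - i η` is invertible -/
theorem isUnit_shift {X : Matrix n n ℂ} (hX : X.IsHermitian) (η : ℝ) (hη : 0 < η) :
    IsUnit (X - ((η : ℂ) * Complex.I) • (1 : Matrix n n ℂ)) := by
  rw [← Matrix.mulVec_injective_iff_isUnit]
  intro u w huw
  have h1 : (X - ((η : ℂ) * Complex.I) • (1 : Matrix n n ℂ)) *ᵥ (u - w) = 0 := by
    rw [Matrix.mulVec_sub]
    exact sub_eq_zero.2 huw
  have h2 := nsq_shift hX η (u - w)
  rw [h1] at h2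
  have h3 : nsq (0 : n → ℂ) = 0 := by simp [nsq]
  rw [h3] at h2
  have h4 := nsq_nonneg (X *ᵥ (u - w))
  have h5 := nsq_nonneg (u - w)
  have h6 : η ^ 2 * nsq (u - w) = 0 := by
    have := mul_nonneg (sq_nonneg η) h5
    linarith
  have h7 : nsq (u - w) = 0 := by
    rcases mul_eq_zero.1 h6 with h | h
    · exact absurd h (by positivity)
    · exact h
  exact sub_eq_zero.1 (nsq_eq_zero _ h7)

section resolvent

variable {X0 : Matrix n n ℂ} {A : m → Matrix n n ℂ} {η : ℝ}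

theorem mul_RR (h0 : X0.IsHermitian) (hA : ∀ y, (A y).IsHermitian) (hη : 0 < η) (V : m → ℝ) :
    (XX X0 A V - ((η : ℂ) * Complex.I) • (1 : Matrix n n ℂ)) * RR X0 A η V = 1 :=
  Matrix.mul_nonsing_inv _ ((Matrix.isUnit_iff_isUnit_det _).1
    (isUnit_shift (XX_herm h0 hA V) η hη))

theorem RR_mul (h0 : X0.IsHermitian) (hA : ∀ y, (A y).IsHermitian) (hη : 0 < η) (V : m → ℝ) :
    RR X0 A η V * (XX X0 A V - ((η : ℂ) * Complex.I) • (1 : Matrix n n ℂ)) = 1 :=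
  Matrix.nonsing_inv_mul _ ((Matrix.isUnit_iff_isUnit_det _).1
    (isUnit_shift (XX_herm h0 hA V) η hη))

/-- the resolvent is bounded -/
theorem RR_bd (h0 : X0.IsHermitian) (hA : ∀ y, (A y).IsHermitian) (hη : 0 < η) (V : m → ℝ)
    (w : n → ℂ) : nsq (RR X0 A η V *ᵥ w) ≤ (η ^ 2)⁻¹ * nsq w := by
  have h1 := nsq_shift (XX_herm h0 hA V) η (RR X0 A η V *ᵥ w)
  rw [Matrix.mulVec_mulVec, mul_RR h0 hA hη V, Matrix.one_mulVec] at h1
  have h2 := nsq_nonneg (XX X0 A V *ᵥ (RR X0 A η V *ᵥ w))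
  rw [h1, mul_add, ← mul_assoc, inv_mul_cancel₀ (by positivity), one_mul]
  have h3 : 0 ≤ (η ^ 2)⁻¹ * nsq (XX X0 A V *ᵥ (RR X0 A η V *ᵥ w)) := by positivity
  linarith

/-- the adjoint of the resolvent -/
theorem RRH_eq (h0 : X0.IsHermitian) (hA : ∀ y, (A y).IsHermitian) (V : m → ℝ) :
    (RR X0 A η V)ᴴ = (XX X0 A V + ((η : ℂ) * Complex.I) • (1 : Matrix n n ℂ))⁻¹ := by
  unfold RR
  rw [Matrix.conjTranspose_nonsing_inv, Matrix.conjTranspose_sub, (XX_herm h0 hA V).eq,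
    Matrix.conjTranspose_smul, Matrix.conjTranspose_one]
  congr 1
  have h3 : star ((η : ℂ) * Complex.I) = -((η : ℂ) * Complex.I) := by
    rw [star_mul']
    simp
  rw [h3, neg_smul, sub_neg_eq_add]

/-- the resolvent commutes with its adjoint -/
theorem RR_diff (h0 : X0.IsHermitian) (hA : ∀ y, (A y).IsHermitian) (hη : 0 < η) (V : m → ℝ) :
    RR X0 A η V - (RR X0 A η V)ᴴ = (2 * (η : ℂ) * Complex.I) • ((RR X0 A η V)ᴴ * RR X0 A η V) ∧
    RR X0 A η V - (RR X0 A η V)ᴴ = (2 * (η : ℂ) * Complex.I) • (RR X0 A η V * (RR X0 A η V)ᴴ) := by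
  have h1 := mul_RR h0 hA hη V
  have h2 := RR_mul h0 hA hη V
  have h3 : star ((η : ℂ) * Complex.I) = -((η : ℂ) * Complex.I) := by
    rw [star_mul']
    simp
  have h5 : (XX X0 A V - ((η : ℂ) * Complex.I) • (1 : Matrix n n ℂ))ᴴ =
      XX X0 A V + ((η : ℂ) * Complex.I) • (1 : Matrix n n ℂ) := by
    rw [Matrix.conjTranspose_sub, (XX_herm h0 hA V).eq, Matrix.conjTranspose_smul,
      Matrix.conjTranspose_one, h3, neg_smul, sub_neg_eq_add]
  have h6 : (RR X0 A η V)ᴴ * (XX X0 A V + ((η : ℂ) * Complex.I) • (1 : Matrix n n ℂ)) = 1 := by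
    have := congrArg Matrix.conjTranspose h1
    rw [Matrix.conjTranspose_mul, h5, Matrix.conjTranspose_one] at this
    exact this
  have h7 : (XX X0 A V + ((η : ℂ) * Complex.I) • (1 : Matrix n n ℂ)) * (RR X0 A η V)ᴴ = 1 := by
    have := congrArg Matrix.conjTranspose h2
    rw [Matrix.conjTranspose_mul, h5, Matrix.conjTranspose_one] at this
    exact this
  have hd : (XX X0 A V + ((η : ℂ) * Complex.I) • (1 : Matrix n n ℂ)) -
      (XX X0 A V - ((η : ℂ) * Complex.I) • (1 : Matrix n n ℂ)) =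
      (2 * (η : ℂ) * Complex.I) • (1 : Matrix n n ℂ) := by
    rw [add_sub_sub_cancel, ← add_smul]
    congr 1
    ring
  constructor
  · calc RR X0 A η V - (RR X0 A η V)ᴴ = ((RR X0 A η V)ᴴ *
          (XX X0 A V + ((η : ℂ) * Complex.I) • (1 : Matrix n n ℂ))) * RR X0 A η V -
          (RR X0 A η V)ᴴ * ((XX X0 A V - ((η : ℂ) * Complex.I) • (1 : Matrix n n ℂ)) *
            RR X0 A η V) := by rw [h6, h1, one_mul, mul_one]
      _ = (RR X0 A η V)ᴴ * ((XX X0 A V + ((η : ℂ) * Complex.I) • (1 : Matrix n n ℂ)) -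
          (XX X0 A V - ((η : ℂ) * Complex.I) • (1 : Matrix n n ℂ))) * RR X0 A η V := by
          generalize XX X0 A V + ((η : ℂ) * Complex.I) • (1 : Matrix n n ℂ) = P1
          generalize XX X0 A V - ((η : ℂ) * Complex.I) • (1 : Matrix n n ℂ) = P2
          noncomm_ring
      _ = _ := by rw [hd, mul_smul_comm, mul_one, smul_mul_assoc]
  · calc RR X0 A η V - (RR X0 A η V)ᴴ = RR X0 A η V *
          ((XX X0 A V + ((η : ℂ) * Complex.I) • (1 : Matrix n n ℂ)) * (RR X0 A η V)ᴴ) -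
          (RR X0 A η V * (XX X0 A V - ((η : ℂ) * Complex.I) • (1 : Matrix n n ℂ))) *
            (RR X0 A η V)ᴴ := by rw [h7, h2, one_mul, mul_one]
      _ = RR X0 A η V * ((XX X0 A V + ((η : ℂ) * Complex.I) • (1 : Matrix n n ℂ)) -
          (XX X0 A V - ((η : ℂ) * Complex.I) • (1 : Matrix n n ℂ))) * (RR X0 A η V)ᴴ := by
          generalize XX X0 A V + ((η : ℂ) * Complex.I) • (1 : Matrix n n ℂ) = P1
          generalize XX X0 A V - ((η : ℂ) * Complex.I) • (1 : Matrix n n ℂ) = P2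
          noncomm_ring
      _ = _ := by rw [hd, mul_smul_comm, mul_one, smul_mul_assoc]

/-- the Ward identity -/
theorem ward (h0 : X0.IsHermitian) (hA : ∀ y, (A y).IsHermitian) (hη : 0 < η) (V : m → ℝ)
    (w : n → ℂ) : (star w ⬝ᵥ (RR X0 A η V *ᵥ w)).im = η * nsq (RR X0 A η V *ᵥ w) ∧
    (star w ⬝ᵥ (RR X0 A η V *ᵥ w)).im = η * nsq ((RR X0 A η V)ᴴ *ᵥ w) := by
  obtain ⟨d1, d2⟩ := RR_diff h0 hA hη V
  have key : ∀ B : Matrix n n ℂ, RR X0 A η V - (RR X0 A η V)ᴴ =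
      (2 * (η : ℂ) * Complex.I) • (Bᴴ * B) →
      (star w ⬝ᵥ (RR X0 A η V *ᵥ w)).im = η * nsq (B *ᵥ w) := by
    intro B hB
    have h1 : star w ⬝ᵥ ((RR X0 A η V - (RR X0 A η V)ᴴ) *ᵥ w) =
        (2 * (η : ℂ) * Complex.I) * (nsq (B *ᵥ w) : ℂ) := by
      rw [hB, Matrix.smul_mulVec, dotProduct_smul, smul_eq_mul, ← Matrix.mulVec_mulVec,
        adjoint, Matrix.conjTranspose_conjTranspose, nsq_eq]
    have h2 : star w ⬝ᵥ ((RR X0 A η V)ᴴ *ᵥ w) =
        (starRingEnd ℂ) (star w ⬝ᵥ (RR X0 A η V *ᵥ w)) := by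
      have e1 : (starRingEnd ℂ) (star w ⬝ᵥ (RR X0 A η V *ᵥ w)) =
          star (star w ⬝ᵥ (RR X0 A η V *ᵥ w)) := rfl
      rw [e1, ← Matrix.star_dotProduct_star, star_star, adjoint,
        Matrix.conjTranspose_conjTranspose, dotProduct_comm]
    rw [Matrix.sub_mulVec, dotProduct_sub, h2, Complex.sub_conj] at h1
    have h3 := congrArg Complex.im h1
    simp at h3
    linarith
  refine ⟨key _ d1, key _ ?_⟩
  rw [Matrix.conjTranspose_conjTranspose]
  exact d2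

theorem RRH_bd (h0 : X0.IsHermitian) (hA : ∀ y, (A y).IsHermitian) (hη : 0 < η) (V : m → ℝ)
    (w : n → ℂ) : nsq ((RR X0 A η V)ᴴ *ᵥ w) ≤ (η ^ 2)⁻¹ * nsq w := by
  obtain ⟨w1, w2⟩ := ward h0 hA hη V w
  have h1 : nsq ((RR X0 A η V)ᴴ *ᵥ w) = nsq (RR X0 A η V *ᵥ w) :=
    mul_left_cancel₀ hη.ne' (w2.symm.trans w1)
  rw [h1]
  exact RR_bd h0 hA hη V w

/-- changing one variable -/
theorem XX_update (V : m → ℝ) (y : m) (t : ℝ) :
    XX X0 A V = XX X0 A (Function.update V y t) + ((V y - t : ℝ) : ℂ) • A y := by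
  unfold XX
  rw [add_assoc]
  congr 1
  rw [← Finset.add_sum_erase _ _ (Finset.mem_univ y),
    ← Finset.add_sum_erase Finset.univ (fun z => ((Function.update V y t z : ℝ) : ℂ) • A z)
      (Finset.mem_univ y), Function.update_self]
  have h1 : ∑ z ∈ Finset.univ.erase y, ((Function.update V y t z : ℝ) : ℂ) • A z =
      ∑ z ∈ Finset.univ.erase y, (V z : ℂ) • A z := by
    refine Finset.sum_congr rfl fun z hz => ?_
    rw [Function.update_of_ne (Finset.ne_of_mem_erase hz)]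
  rw [h1]
  push_cast
  rw [sub_smul]
  abel

/-- the resolvent identity -/
theorem RR_update (h0 : X0.IsHermitian) (hA : ∀ y, (A y).IsHermitian) (hη : 0 < η) (V : m → ℝ)
    (y : m) :
    RR X0 A η V = RR X0 A η (Function.update V y 0) -
      (V y : ℂ) • (RR X0 A η V * A y * RR X0 A η (Function.update V y 0)) ∧
    RR X0 A η V = RR X0 A η (Function.update V y 0) -
      (V y : ℂ) • (RR X0 A η (Function.update V y 0) * A y * RR X0 A η V) := by
  obtain ⟨U, hU⟩ : ∃ U, U = Function.update V y 0 := ⟨_, rfl⟩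
  rw [← hU]
  have h1 := mul_RR h0 hA hη V
  have h2 := RR_mul h0 hA hη V
  have h3 := mul_RR h0 hA hη U
  have h4 := RR_mul h0 hA hη U
  have h5 := XX_update (X0 := X0) (A := A) V y 0
  rw [← hU, sub_zero] at h5
  have hd : (V y : ℂ) • A y = (XX X0 A V - ((η : ℂ) * Complex.I) • (1 : Matrix n n ℂ)) -
      (XX X0 A U - ((η : ℂ) * Complex.I) • (1 : Matrix n n ℂ)) := by
    rw [h5]
    abel
  constructor
  · have e1 : (V y : ℂ) • (RR X0 A η V * A y * RR X0 A η U) =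
        RR X0 A η V * ((V y : ℂ) • A y) * RR X0 A η U := by
      rw [mul_smul_comm, smul_mul_assoc]
    rw [e1, hd, mul_sub, sub_mul, h2, one_mul, mul_assoc, h3, mul_one]
    abel
  · have e1 : (V y : ℂ) • (RR X0 A η U * A y * RR X0 A η V) =
        RR X0 A η U * ((V y : ℂ) • A y) * RR X0 A η V := by
      rw [mul_smul_comm, smul_mul_assoc]
    rw [e1, hd, mul_sub, sub_mul, h4, one_mul, mul_assoc, h1, mul_one]
    abel

end resolvent

/-- Hilbert-Schmidt norms and columns -/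
theorem hs_col (W : Matrix n n ℂ) : hs W = ∑ j, nsq (fun i => W i j) := by
  unfold hs nsq
  rw [Finset.sum_comm]

theorem hs_mul_left (B W : Matrix n n ℂ) (c : ℝ) (hB : ∀ w : n → ℂ, nsq (B *ᵥ w) ≤ c * nsq w) :
    hs (B * W) ≤ c * hs W := by
  rw [hs_col, hs_col, Finset.mul_sum]
  refine Finset.sum_le_sum fun j _ => ?_
  exact hB fun i => W i j

theorem hs_conj (W : Matrix n n ℂ) : hs Wᴴ = hs W := by
  unfold hs
  rw [Finset.sum_comm]
  refine Finset.sum_congr rfl fun i _ => Finset.sum_congr rfl fun j _ => ?_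
  rw [Matrix.conjTranspose_apply, norm_star]

theorem hs_mul_right (B W : Matrix n n ℂ) (c : ℝ) (hB : ∀ w : n → ℂ, nsq (Bᴴ *ᵥ w) ≤ c * nsq w) :
    hs (W * B) ≤ c * hs W := by
  rw [← hs_conj (W * B), Matrix.conjTranspose_mul, ← hs_conj W]
  exact hs_mul_left _ _ c hB

/-- Cauchy-Schwarz for the trace -/
theorem cs_trace (B W : Matrix n n ℂ) : ‖(B * W).trace‖ ^ 2 ≤ hs B * hs W := by
  have h1 : (B * W).trace = ∑ p : n × n, B p.1 p.2 * W p.2 p.1 := by
    rw [Fintype.sum_prod_type]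
    rfl
  have h2 : hs B = ∑ p : n × n, ‖B p.1 p.2‖ ^ 2 := by
    rw [Fintype.sum_prod_type]
    rfl
  have h3 : hs W = ∑ p : n × n, ‖W p.2 p.1‖ ^ 2 := by
    rw [Fintype.sum_prod_type]
    unfold hs
    rw [Finset.sum_comm]
  rw [h1, h2, h3]
  have h4 : ‖∑ p : n × n, B p.1 p.2 * W p.2 p.1‖ ≤ ∑ p : n × n, ‖B p.1 p.2‖ * ‖W p.2 p.1‖ := by
    refine (norm_sum_le _ _).trans (Finset.sum_le_sum fun i _ => ?_)
    rw [norm_mul]
  calc _ ≤ (∑ p : n × n, ‖B p.1 p.2‖ * ‖W p.2 p.1‖) ^ 2 :=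
        pow_le_pow_left₀ (norm_nonneg _) h4 2
    _ ≤ _ := Finset.sum_mul_sq_le_sq_mul_sq _ _ _

end Pool.Agent.W788.BK
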