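import Pool.Agent.W788.BK.Stm

/-! Continuity and integrability of the resolvent. -/

set_option autoImplicit false
set_option linter.unusedSectionVars false

open scoped BigOperators Matrix
open MeasureTheory

namespace Pool.Agent.W788.BK

variable {n m : Type} [Fintype n] [DecidableEq n] [Fintype m] [DecidableEq m]
variable {X0 : Matrix n n ℂ} {A : m → Matrix n n ℂ} {η : ℝ}

instance instPP (m : Type) [Fintype m] (μ : Measure ℝ) [IsProbabilityMeasure μ] :
    IsProbabilityMeasure (PP m μ) := by
  unfold PP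
  infer_instance

theorem continuous_XX : Continuous fun V : m → ℝ => XX X0 A V := by
  unfold XX
  refine continuous_const.add (continuous_finsetSum _ fun y _ => ?_)
  exact (Complex.continuous_ofReal.comp (continuous_apply y)).smul continuous_const

/-- the resolvent is continuous -/
theorem continuous_RR (h0 : X0.IsHermitian) (hA : ∀ y, (A y).IsHermitian) (hη : 0 < η) :
    Continuous fun V : m → ℝ => RR X0 A η V := by
  have h1 : Continuous fun V : m → ℝ =>
      XX X0 A V - ((η : ℂ) * Complex.I) • (1 : Matrix n n ℂ) := continuous_XX.sub continuous_const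
  unfold RR
  rw [continuous_iff_continuousAt]
  intro V
  simp only [Matrix.inv_def]
  have h2 : (XX X0 A V - ((η : ℂ) * Complex.I) • (1 : Matrix n n ℂ)).det ≠ 0 := by
    have := (Matrix.isUnit_iff_isUnit_det _).1 (isUnit_shift (XX_herm h0 hA V) η hη)
    exact this.ne_zero
  have h3 : Continuous fun V : m → ℝ =>
      (XX X0 A V - ((η : ℂ) * Complex.I) • (1 : Matrix n n ℂ)).det := h1.matrix_det
  have h4 : Continuous fun V : m → ℝ =>
      (XX X0 A V - ((η : ℂ) * Complex.I) • (1 : Matrix n n ℂ)).adjugate := h1.matrix_adjugate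
  simp only [Ring.inverse_eq_inv']
  exact (h3.continuousAt.inv₀ h2).smul h4.continuousAt

theorem continuous_RR_apply (h0 : X0.IsHermitian) (hA : ∀ y, (A y).IsHermitian) (hη : 0 < η)
    (i j : n) : Continuous fun V : m → ℝ => RR X0 A η V i j :=
  (continuous_RR h0 hA hη).matrix_elem i j

/-- the forms of the resolvent are bounded -/
theorem form_bd (h0 : X0.IsHermitian) (hA : ∀ y, (A y).IsHermitian) (hη : 0 < η) (V : m → ℝ)
    (u w : n → ℂ) : ‖star u ⬝ᵥ (RR X0 A η V *ᵥ w)‖ ≤
      η⁻¹ * (Real.sqrt (nsq u) * Real.sqrt (nsq w)) := by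
  refine (cs_norm u _).trans ?_
  have h1 := Real.sqrt_le_sqrt (RR_bd h0 hA hη V w)
  rw [Real.sqrt_mul (by positivity), Real.sqrt_inv, Real.sqrt_sq hη.le] at h1
  calc Real.sqrt (nsq u) * Real.sqrt (nsq (RR X0 A η V *ᵥ w)) ≤
      Real.sqrt (nsq u) * (η⁻¹ * Real.sqrt (nsq w)) := by gcongr
    _ = _ := by ring

theorem nsq_single (i : n) : nsq (Pi.single i (1 : ℂ)) = 1 := by
  unfold nsq
  rw [Finset.sum_eq_single i]
  · simp
  · intro j _ hj
    rw [Pi.single_eq_of_ne hj]
    simp
  · intro h
    exact absurd (Finset.mem_univ i) h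

theorem star_single (i : n) : star (Pi.single i (1 : ℂ) : n → ℂ) = Pi.single i 1 := by
  funext j
  by_cases h : j = i
  · subst h
    simp
  · simp [Pi.single_eq_of_ne h]

theorem form_single (B : Matrix n n ℂ) (i j : n) :
    star (Pi.single i (1 : ℂ)) ⬝ᵥ (B *ᵥ Pi.single j 1) = B i j := by
  rw [star_single, single_dotProduct, Matrix.mulVec_single]
  simp

theorem entry_bd (h0 : X0.IsHermitian) (hA : ∀ y, (A y).IsHermitian) (hη : 0 < η) (V : m → ℝ)
    (i j : n) : ‖RR X0 A η V i j‖ ≤ η⁻¹ := by
  have h1 := form_bd h0 hA hη V (Pi.single i 1) (Pi.single j 1)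
  rw [form_single, nsq_single, nsq_single] at h1
  simpa using h1

theorem integrable_RR (h0 : X0.IsHermitian) (hA : ∀ y, (A y).IsHermitian) (hη : 0 < η)
    (μ : Measure ℝ) [IsProbabilityMeasure μ] (i j : n) :
    Integrable (fun V => RR X0 A η V i j) (PP m μ) :=
  Integrable.of_bound (C := η⁻¹) (continuous_RR_apply h0 hA hη i j).aestronglyMeasurable
    (Filter.Eventually.of_forall fun V => entry_bd h0 hA hη V i j)

/-- the mean of a form of the resolvent -/
theorem integral_form (h0 : X0.IsHermitian) (hA : ∀ y, (A y).IsHermitian) (hη : 0 < η)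
    (μ : Measure ℝ) [IsProbabilityMeasure μ] (u w : n → ℂ) :
    Integrable (fun V => star u ⬝ᵥ (RR X0 A η V *ᵥ w)) (PP m μ) ∧
    ∫ V, star u ⬝ᵥ (RR X0 A η V *ᵥ w) ∂(PP m μ) = star u ⬝ᵥ (MM X0 A η μ *ᵥ w) := by
  have h1 : ∀ B : Matrix n n ℂ, star u ⬝ᵥ (B *ᵥ w) = ∑ i, ∑ j, star (u i) * (B i j * w j) := by
    intro B
    unfold Matrix.mulVec dotProduct
    refine Finset.sum_congr rfl fun i _ => ?_
    rw [Finset.mul_sum]
    rfl
  have h2 : ∀ i j, Integrable (fun V => star (u i) * (RR X0 A η V i j * w j)) (PP m μ) :=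
    fun i j => ((integrable_RR h0 hA hη μ i j).mul_const _).const_mul _
  simp only [h1]
  constructor
  · exact integrable_finsetSum _ fun i _ => integrable_finsetSum _ fun j _ => h2 i j
  · rw [integral_finsetSum _ fun i _ => integrable_finsetSum _ fun j _ => h2 i j]
    refine Finset.sum_congr rfl fun i _ => ?_
    rw [integral_finsetSum _ fun j _ => h2 i j]
    refine Finset.sum_congr rfl fun j _ => ?_
    rw [integral_const_mul, integral_mul_const]
    rfl

end Pool.Agent.W788.BK
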