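import Pool.Agent.W788.MFP.Four

/-! Definitions for the resolvent analysis beyond the kinetic scale. -/

set_option autoImplicit false
set_option linter.unusedSectionVars false

open scoped BigOperators Matrix
open MeasureTheory

namespace Pool.Agent.W788.BK

open Pool.Agent.W788.MFP.Four (T e NN adj K ft)

/-- the square of the norm of a vector -/
noncomputable def nsq {n : Type} [Fintype n] (w : n → ℂ) : ℝ := ∑ i, ‖w i‖ ^ 2

/-- the square of the Hilbert-Schmidt norm of a matrix -/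
noncomputable def hs {n : Type} [Fintype n] (W : Matrix n n ℂ) : ℝ := ∑ i, ∑ j, ‖W i j‖ ^ 2

/-- the law of a family of independent variables -/
noncomputable def PP (m : Type) [Fintype m] (μ : Measure ℝ) : Measure (m → ℝ) :=
  Measure.pi fun _ : m => μ

/-- `X = X₀ + ∑ V_y A_y` -/
noncomputable def XX {n m : Type} [Fintype n] [Fintype m] (X0 : Matrix n n ℂ)
    (A : m → Matrix n n ℂ) (V : m → ℝ) : Matrix n n ℂ :=
  X0 + ∑ y, (V y : ℂ) • A y

/-- the resolvent `(X - i η)⁻¹` -/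
noncomputable def RR {n m : Type} [Fintype n] [DecidableEq n] [Fintype m] (X0 : Matrix n n ℂ)
    (A : m → Matrix n n ℂ) (η : ℝ) (V : m → ℝ) : Matrix n n ℂ :=
  (XX X0 A V - ((η : ℂ) * Complex.I) • (1 : Matrix n n ℂ))⁻¹

/-- the hypotheses on the Hermitian matrices `A_y`: operator norms at most `a`,
`∑ A_y² ≤ v2`, and `∑ |tr (A_y W)|² ≤ Q ‖W‖²` for the Hilbert-Schmidt norm -/
structure Adm {n m : Type} [Fintype n] [DecidableEq n] [Fintype m] (X0 : Matrix n n ℂ)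
    (A : m → Matrix n n ℂ) (a v2 Q : ℝ) : Prop where
  hX0 : X0.IsHermitian
  hA : ∀ y, (A y).IsHermitian
  ha0 : 0 ≤ a
  hv0 : 0 ≤ v2
  hQ0 : 0 ≤ Q
  ha : ∀ (y : m) (w : n → ℂ), nsq (A y *ᵥ w) ≤ a ^ 2 * nsq w
  hv : ∀ w : n → ℂ, ∑ y, nsq (A y *ᵥ w) ≤ v2 * nsq w
  hQ : ∀ W : Matrix n n ℂ, ∑ y, ‖(A y * W).trace‖ ^ 2 ≤ Q * hs W

/-- the mean of the resolvent -/
noncomputable def MM {n m : Type} [Fintype n] [DecidableEq n] [Fintype m] (X0 : Matrix n n ℂ)
    (A : m → Matrix n n ℂ) (η : ℝ) (μ : Measure ℝ) : Matrix n n ℂ :=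
  Matrix.of fun i j => ∫ V, RR X0 A η V i j ∂(PP m μ)

/-- the self-energy map `B ↦ ∑ A_y B A_y` -/
noncomputable def Psi {n m : Type} [Fintype n] [Fintype m]
    (A : m → Matrix n n ℂ) (B : Matrix n n ℂ) : Matrix n n ℂ :=
  ∑ y, A y * B * A y

/-- the mean of `Psi(R) R` -/
noncomputable def SE {n m : Type} [Fintype n] [DecidableEq n] [Fintype m] (X0 : Matrix n n ℂ)
    (A : m → Matrix n n ℂ) (η : ℝ) (μ : Measure ℝ) : Matrix n n ℂ :=
  Matrix.of fun i j => ∫ V, (Psi A (RR X0 A η V) * RR X0 A η V) i j ∂(PP m μ)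

end Pool.Agent.W788.BK
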