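import Pool.Agent.W788.BK.Param
import Pool.Agent.W788.LD.Spec

/-! Spectral measures and eigenfunctions. -/

set_option autoImplicit false
set_option linter.unusedSectionVars false

open scoped BigOperators
open MeasureTheory

namespace Pool.Agent.W788.BK

open Pool.Agent.W788.LD.Main Pool.Agent.W788.LD.Spec
open Pool.Agent.H4R2.LO (Zd)

variable {d : ℕ}

/-- from one scale to all larger ones -/
theorem SM1_SM (σ ρ t g : ℝ) (ht : 0 < t) (hg : 0 ≤ g) (ξ : Zd d → ℝ)
    (h : SM1 d σ ρ t g ξ) : SM d σ ρ t (fun δ => g * (δ / t)) ξ := by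
  intro E δ hδ _ u f hu hf heq a ha
  have h1 := h E u f hu hf heq a ha
  have hSu : 0 ≤ ∑' x, u x ^ 2 := tsum_nonneg fun x => sq_nonneg _
  have hSf : 0 ≤ ∑' x, f x ^ 2 := tsum_nonneg fun x => sq_nonneg _
  have hδ0 : 0 < δ := ht.trans_le hδ
  have hr : 1 ≤ δ / t := by
    rw [le_div_iff₀ ht]
    linarith
  refine h1.trans ?_
  have e1 : t ≤ δ / t * δ := by
    calc t ≤ δ := hδ
      _ = 1 * δ := by ring
      _ ≤ _ := by gcongr
  have e2 : t⁻¹ = δ / t * δ⁻¹ := by
    field_simp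
  calc g * (5 * t * ∑' x, u x ^ 2 + 2 * t⁻¹ * ∑' x, f x ^ 2) ≤
      g * (5 * (δ / t * δ) * ∑' x, u x ^ 2 + 2 * (δ / t * δ⁻¹) * ∑' x, f x ^ 2) := by
        rw [← e2]
        gcongr
    _ = _ := by ring

/-- covering an interval -/
theorem cover (m : Measure ℝ) [IsFiniteMeasure m] (t C : ℝ) (ht : 0 < t) (hC : 0 ≤ C)
    (h : ∀ E : ℝ, m.real (Set.Icc (E - t) (E + t)) ≤ C * t) (E s : ℝ) (hs : t ≤ s) :
    m.real (Set.Icc (E - s) (E + s)) ≤ 2 * C * s := by
  obtain ⟨n, hn⟩ : ∃ n : ℕ, n = ⌈s / t⌉₊ := ⟨_, rfl⟩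
  have hs0 : 0 < s := ht.trans_le hs
  have h1 : s / t ≤ n := by
    rw [hn]
    exact Nat.le_ceil _
  have h2 : (n : ℝ) ≤ 2 * (s / t) := by
    have e1 := Nat.ceil_lt_add_one (show 0 ≤ s / t by positivity)
    rw [← hn] at e1
    have e2 : 1 ≤ s / t := by
      rw [le_div_iff₀ ht]
      linarith
    linarith
  have hsub : Set.Icc (E - s) (E + s) ⊆ ⋃ j ∈ Finset.range (n + 0),
      Set.Icc ((E - s + (2 * j + 1) * t) - t) ((E - s + (2 * j + 1) * t) + t) := by
    intro x hx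
    rw [Set.mem_Icc] at hx
    rcases eq_or_lt_of_le hx.2 with hxe | hxl
    · -- the right end
      have hn1 : 1 ≤ n := by
        by_contra hcon
        have : n = 0 := by omega
        rw [this] at h1
        have : 0 < s / t := by positivity
        push_cast at h1
        linarith
      refine Set.mem_iUnion₂.2 ⟨n - 1, Finset.mem_range.2 (by omega), ?_⟩
      have e1 : ((n - 1 : ℕ) : ℝ) = n - 1 := by
        rw [Nat.cast_sub hn1]
        simp
      have e2 := Nat.ceil_lt_add_one (show 0 ≤ s / t by positivity)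
      rw [← hn] at e2
      rw [div_le_iff₀ ht] at h1
      have e3 : (n : ℝ) * t < s + t := by
        have := mul_lt_mul_of_pos_right e2 ht
        have e4 : (s / t + 1) * t = s + t := by field_simp
        linarith
      rw [Set.mem_Icc, e1]
      constructor
      · linarith
      · linarith
    · obtain ⟨j, hj⟩ : ∃ j : ℕ, j = ⌊(x - (E - s)) / (2 * t)⌋₊ := ⟨_, rfl⟩
      have h0 : 0 ≤ (x - (E - s)) / (2 * t) := div_nonneg (by linarith [hx.1]) (by linarith)
      have e1 := Nat.floor_le h0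
      have e2 := Nat.lt_floor_add_one ((x - (E - s)) / (2 * t))
      rw [← hj] at e1 e2
      rw [le_div_iff₀ (by positivity)] at e1
      rw [div_lt_iff₀ (by positivity)] at e2
      have hjn : j < n := by
        rw [div_le_iff₀ ht] at h1
        have e3 : (j : ℝ) * (2 * t) < 2 * (n * t) := by linarith
        have e4 : (j : ℝ) < n := by
          by_contra hcon
          push Not at hcon
          have := mul_le_mul_of_nonneg_right hcon ht.le
          linarith
        exact_mod_cast e4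
      refine Set.mem_iUnion₂.2 ⟨j, Finset.mem_range.2 (by omega), ?_⟩
      rw [Set.mem_Icc]
      constructor <;> linarith
  refine (measureReal_mono hsub (measure_ne_top _ _)).trans
    ((measureReal_biUnion_finset_le _ _).trans ?_)
  refine (Finset.sum_le_sum fun j _ => h _).trans ?_
  rw [Finset.sum_const, Finset.card_range, nsmul_eq_mul, add_zero]
  calc (n : ℝ) * (C * t) ≤ 2 * (s / t) * (C * t) := by gcongr
    _ = 2 * C * s := by field_simp

/-- **flat spectral measures and eigenfunctions** -/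
theorem flat1 (σ ρ t g : ℝ) (ht : 0 < t) (ht1 : t ≤ 1 / 2) (hg : 0 ≤ g) (ξ : Zd d → ℝ)
    (h : SM1 d σ ρ t g ξ) (V : Zd d → ℝ) (c0 : ℝ) (hV : ∀ x, V x = c0 - σ * ξ x) :
    (∀ (f : Zd d → ℂ) (B : Finset (Zd d)), (∀ a ∈ B, ‖a‖ ≤ ρ) → (∀ a, a ∉ B → f a = 0) →
      ∀ m : Measure ℝ, IsFiniteMeasure m →
      (∀ z : ℂ, z.im ≠ 0 → ∃ u : Zd d → ℂ, (Summable fun x => ‖u x‖ ^ 2) ∧
        (∀ x, -S u x + (V x : ℂ) * u x - z * u x = f x) ∧
        ∫ t : ℝ, ((t : ℂ) - z)⁻¹ ∂m = ∑' x, (starRingEnd ℂ) (f x) * u x) →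
      ∀ E s : ℝ, t ≤ s → m.real (Set.Icc (E - s) (E + s)) ≤ 20 * g * s * (∑ a ∈ B, ‖f a‖) ^ 2) ∧
    (∀ (E : ℝ) (u : Zd d → ℂ), (Summable fun x => ‖u x‖ ^ 2) →
      (∀ x, -S u x + (V x : ℂ) * u x = (E : ℂ) * u x) → ∀ a : Zd d, ‖a‖ ≤ ρ →
      ‖u a‖ ^ 2 ≤ 5 * g * t * ∑' x, ‖u x‖ ^ 2) := by
  have hSM := SM1_SM σ ρ t g ht hg ξ h
  have htt : t / t = 1 := div_self ht.ne'
  constructor
  · intro f B hB hfB m hm hres E s hs
    have h1 : ∀ E : ℝ, m.real (Set.Icc (E - t) (E + t)) ≤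
        (10 * g * (∑ a ∈ B, ‖f a‖) ^ 2) * t := by
      intro E
      have := flat σ ρ t _ ξ hSM V c0 hV m E t ht le_rfl ht1 (by simp only [htt]; linarith) f B hB
        hfB hres
      simp only [htt, mul_one] at this
      linarith
    have h2 := cover m t _ ht (by positivity) h1 E s hs
    linarith
  · intro E u hu heq a ha
    have h1 := SM_complex σ ρ t _ ξ hSM (c0 - E) t le_rfl ht1 u (fun _ => 0) hu
      (by simp) (fun x => by
        have e2 := heq x
        rw [hV x] at e2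
        push_cast at e2 ⊢
        linear_combination -e2) a ha
    simp only [htt, mul_one] at h1
    have e3 : ∑' _x : Zd d, ‖(0 : ℂ)‖ ^ 2 = 0 := by simp
    rw [e3] at h1
    linarith

end Pool.Agent.W788.BK
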