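import Pool.Agent.W788.BK.Net
import Pool.Agent.W788.LD.Main

/-! From the torus to the lattice. -/

set_option autoImplicit false
set_option linter.unusedSectionVars false

open scoped BigOperators
open MeasureTheory

namespace Pool.Agent.W788.BK

open Pool.Agent.W788.MFP.Four Pool.Agent.W788.MFP.Dos Pool.Agent.W788.MFP.Form
open Pool.Agent.W788.MFP.Ball Pool.Agent.W788.MFP.Crit Pool.Agent.W788.MFP.Cut
open Pool.Agent.W788.MFP.Site Pool.Agent.W788.MF2.Dom Pool.Agent.W788.MF2.FinG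
open Pool.Agent.W788.MF2.FormG Pool.Agent.W788.LD.Main Pool.Agent.H4R2
open Pool.Agent.H4R2.LO (Zd)
open Pool.Agent.H695R3.AN (lf lf_inj lf_add lf_sub)

variable {d L : ℕ} [NeZero L]

/-- cutting off at the scale `ℓ` -/
theorem cutg (hd : 1 ≤ d) (σ E t ℓ : ℝ) (ht : 0 < t)
    (hℓ : 2 * d ≤ t * ℓ) (hL : 4 * ℓ + 4 < L) (ω u f : Zd d → ℝ)
    (hu : Summable fun x => u x ^ 2) (hfs : Summable fun x => f x ^ 2)
    (heq : ∀ x, ∑ i, (u (x + Pi.single i 1) + u (x - Pi.single i 1)) + σ * ω x * u x =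
      E * u x + f x) :
    ∃ v r : T d L → ℝ, v 0 = u 0 ∧
      (∀ x, Op (fun k => adj k - E) v x = -(σ * ω (lf x) * v x) + r x) ∧
      ∑ x, v x ^ 2 ≤ ∑' x, u x ^ 2 ∧
      ∑ x, r x ^ 2 ≤ 2 * (t ^ 2 * ∑' x, u x ^ 2) + 2 * ∑' x, f x ^ 2 := by
  have hd0 : (1 : ℝ) ≤ d := by exact_mod_cast hd
  have hℓ0 : 0 < ℓ := by
    by_contra hcon
    push Not at hcon
    have := mul_nonpos_of_nonneg_of_nonpos ht.le hcon
    linarith
  obtain ⟨v, hv⟩ : ∃ v : T d L → ℝ, v = fun y => φ ℓ (lf y) * u (lf y) := ⟨_, rfl⟩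
  obtain ⟨r, hr⟩ : ∃ r : T d L → ℝ, r = fun y => ∑ i : Fin d,
    ((φ ℓ (lf (y + Pi.single i 1)) * u (lf (y + Pi.single i 1)) -
        φ ℓ (lf y) * u (lf y + Pi.single i 1)) +
     (φ ℓ (lf (y - Pi.single i 1)) * u (lf (y - Pi.single i 1)) -
        φ ℓ (lf y) * u (lf y - Pi.single i 1))) := ⟨_, rfl⟩
  have hvr : ∀ x, Op (fun k => adj k - E) v x = -(σ * ω (lf x) * v x) +
      (r x + φ ℓ (lf x) * f (lf x)) := by
    intro x
    rw [Op_adj]
    simp only [hv, hr]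
    have h1 := heq (lf x)
    have h2 : ∑ i : Fin d,
        ((φ ℓ (lf (x + Pi.single i 1)) * u (lf (x + Pi.single i 1)) -
            φ ℓ (lf x) * u (lf x + Pi.single i 1)) +
         (φ ℓ (lf (x - Pi.single i 1)) * u (lf (x - Pi.single i 1)) -
            φ ℓ (lf x) * u (lf x - Pi.single i 1))) =
        ∑ i : Fin d, (φ ℓ (lf (x + Pi.single i 1)) * u (lf (x + Pi.single i 1)) +
          φ ℓ (lf (x - Pi.single i 1)) * u (lf (x - Pi.single i 1))) -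
        φ ℓ (lf x) * ∑ i : Fin d, (u (lf x + Pi.single i 1) + u (lf x - Pi.single i 1)) := by
      rw [Finset.mul_sum, ← Finset.sum_sub_distrib]
      exact Finset.sum_congr rfl fun i _ => by ring
    rw [h2]
    have h3 : φ ℓ (lf x) * ∑ i : Fin d, (u (lf x + Pi.single i 1) + u (lf x - Pi.single i 1)) =
        φ ℓ (lf x) * (E * u (lf x) + f (lf x) - σ * ω (lf x) * u (lf x)) := by
      rw [← h1]
      ring
    rw [h3]
    ring
  have hS0 : 0 ≤ ∑' x, u x ^ 2 := tsum_nonneg fun x => sq_nonneg _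
  have h2 : ∑ x, v x ^ 2 ≤ ∑' x, u x ^ 2 := by
    refine le_trans (Finset.sum_le_sum fun x _ => ?_)
      (sum_lf (L := L) (fun x => u x ^ 2) (fun x => sq_nonneg _) hu)
    rw [hv]
    simp only
    rw [mul_pow]
    apply mul_le_of_le_one_left (sq_nonneg _)
    exact pow_le_one₀ (φ_nonneg _ _) (φ_le_one _ _)
  have hplus : ∀ i : Fin d, ∑ y : T d L, u (lf y + Pi.single i 1) ^ 2 ≤ ∑' x, u x ^ 2 := by
    intro i
    have h5 : Summable (fun x : Zd d => u (x + Pi.single i 1) ^ 2) :=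
      (Equiv.addRight (Pi.single i 1 : Zd d)).summable_iff.2 hu
    refine (sum_lf (L := L) (fun x => u (x + Pi.single i 1) ^ 2) (fun x => sq_nonneg _) h5).trans ?_
    exact le_of_eq ((Equiv.addRight (Pi.single i 1 : Zd d)).tsum_eq fun x => u x ^ 2)
  have hminus : ∀ i : Fin d, ∑ y : T d L, u (lf y - Pi.single i 1) ^ 2 ≤ ∑' x, u x ^ 2 := by
    intro i
    have h5 : Summable (fun x : Zd d => u (x - Pi.single i 1) ^ 2) :=
      (Equiv.subRight (Pi.single i 1 : Zd d)).summable_iff.2 hu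
    refine (sum_lf (L := L) (fun x => u (x - Pi.single i 1) ^ 2) (fun x => sq_nonneg _) h5).trans ?_
    exact le_of_eq ((Equiv.subRight (Pi.single i 1 : Zd d)).tsum_eq fun x => u x ^ 2)
  have h3 : ∑ x, r x ^ 2 ≤ (2 * d / ℓ) ^ 2 * ∑' x, u x ^ 2 := by
    have h4 : ∀ y, r y ^ 2 ≤ d * ∑ i : Fin d, (2 * (1 / ℓ) ^ 2 * (u (lf y + Pi.single i 1) ^ 2 +
        u (lf y - Pi.single i 1) ^ 2)) := by
      intro y
      rw [hr]
      simp only
      refine sq_sum_le_card_mul_sum_sq.trans ?_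
      rw [Finset.card_univ, Fintype.card_fin]
      apply mul_le_mul_of_nonneg_left _ (by positivity)
      refine Finset.sum_le_sum fun i _ => ?_
      obtain ⟨s1, s2⟩ := MFP.Cut.step ℓ hℓ0 hL u y i
      obtain ⟨A, hA⟩ : ∃ A, A = φ ℓ (lf (y + Pi.single i 1)) * u (lf (y + Pi.single i 1)) -
        φ ℓ (lf y) * u (lf y + Pi.single i 1) := ⟨_, rfl⟩
      obtain ⟨B, hB⟩ : ∃ B, B = φ ℓ (lf (y - Pi.single i 1)) * u (lf (y - Pi.single i 1)) -
        φ ℓ (lf y) * u (lf y - Pi.single i 1) := ⟨_, rfl⟩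
      rw [← hA] at s1
      rw [← hB] at s2
      rw [← hA, ← hB]
      have e1 : A ^ 2 ≤ (1 / ℓ) ^ 2 * u (lf y + Pi.single i 1) ^ 2 := by
        rw [← sq_abs A, ← sq_abs (u (lf y + Pi.single i 1)), ← mul_pow]
        exact pow_le_pow_left₀ (abs_nonneg _) s1 2
      have e2 : B ^ 2 ≤ (1 / ℓ) ^ 2 * u (lf y - Pi.single i 1) ^ 2 := by
        rw [← sq_abs B, ← sq_abs (u (lf y - Pi.single i 1)), ← mul_pow]
        exact pow_le_pow_left₀ (abs_nonneg _) s2 2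
      have e3 : (A + B) ^ 2 ≤ 2 * (A ^ 2 + B ^ 2) := add_sq_le
      linarith
    refine (Finset.sum_le_sum fun y _ => h4 y).trans ?_
    rw [← Finset.mul_sum, Finset.sum_comm]
    have h5 : ∀ i : Fin d, ∑ y : T d L, (2 * (1 / ℓ) ^ 2 * (u (lf y + Pi.single i 1) ^ 2 +
        u (lf y - Pi.single i 1) ^ 2)) ≤ 4 * (1 / ℓ) ^ 2 * ∑' x, u x ^ 2 := by
      intro i
      rw [← Finset.mul_sum, Finset.sum_add_distrib]
      have h6 := hplus i
      have h7 := hminus i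
      calc 2 * (1 / ℓ) ^ 2 * (∑ y : T d L, u (lf y + Pi.single i 1) ^ 2 +
            ∑ y : T d L, u (lf y - Pi.single i 1) ^ 2) ≤
          2 * (1 / ℓ) ^ 2 * (∑' x, u x ^ 2 + ∑' x, u x ^ 2) := by gcongr
        _ = _ := by ring
    calc (d : ℝ) * ∑ i : Fin d, ∑ y : T d L, (2 * (1 / ℓ) ^ 2 * (u (lf y + Pi.single i 1) ^ 2 +
          u (lf y - Pi.single i 1) ^ 2)) ≤
        d * ∑ i : Fin d, (4 * (1 / ℓ) ^ 2 * ∑' x, u x ^ 2) := by
          apply mul_le_mul_of_nonneg_left _ (by positivity)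
          exact Finset.sum_le_sum fun i _ => h5 i
      _ = _ := by
        rw [Finset.sum_const, Finset.card_univ, Fintype.card_fin, nsmul_eq_mul]
        ring
  have h4 : 2 * d / ℓ ≤ t := by
    rw [div_le_iff₀ hℓ0]
    exact hℓ
  have h5 : ∑ x, r x ^ 2 ≤ t ^ 2 * ∑' x, u x ^ 2 := by
    refine h3.trans (mul_le_mul_of_nonneg_right ?_ hS0)
    exact pow_le_pow_left₀ (by positivity) h4 2
  have h6 : ∑ x : T d L, (φ ℓ (lf x) * f (lf x)) ^ 2 ≤ ∑' x, f x ^ 2 := by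
    refine le_trans (Finset.sum_le_sum fun x _ => ?_)
      (sum_lf (L := L) (fun x => f x ^ 2) (fun x => sq_nonneg _) hfs)
    rw [mul_pow]
    apply mul_le_of_le_one_left (sq_nonneg _)
    exact pow_le_one₀ (φ_nonneg _ _) (φ_le_one _ _)
  refine ⟨v, fun x => r x + φ ℓ (lf x) * f (lf x), ?_, hvr, h2, ?_⟩
  · have hz : z L (0 : Zd d) = (0 : T d L) := by
      funext i
      simp [z]
    have h7 : lf (0 : T d L) = 0 := by
      rw [← hz]
      apply lf_z 0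
      rw [norm_zero]
      linarith
    rw [hv]
    simp only
    rw [h7, φ_one ℓ hℓ0 0 (by rw [norm_zero]; exact hℓ0.le), one_mul]
  · have e1 : ∑ x, (r x + φ ℓ (lf x) * f (lf x)) ^ 2 ≤
        ∑ x, (2 * r x ^ 2 + 2 * (φ ℓ (lf x) * f (lf x)) ^ 2) :=
      Finset.sum_le_sum fun x _ => by
        nlinarith [sq_nonneg (r x - φ ℓ (lf x) * f (lf x))]
    rw [Finset.sum_add_distrib, ← Finset.mul_sum, ← Finset.mul_sum] at e1
    linarith

/-- local smoothing at one scale -/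
def SM1 (d : ℕ) (σ ρ t g : ℝ) (ξ : Zd d → ℝ) : Prop :=
  ∀ E : ℝ, ∀ u f : Zd d → ℝ,
    (Summable fun x => u x ^ 2) → (Summable fun x => f x ^ 2) →
    (∀ x, ∑ i, (u (x + Pi.single i 1) + u (x - Pi.single i 1)) + σ * ξ x * u x =
      E * u x + f x) →
    ∀ a : Zd d, ‖a‖ ≤ ρ →
    u a ^ 2 ≤ g * (5 * t * ∑' x, u x ^ 2 + 2 * t⁻¹ * ∑' x, f x ^ 2)

/-- the value at the origin -/
theorem site1 (hSI : S_SITE) (hd : 1 ≤ d) (σ δ θ η g ℓ : ℝ) (M : ℕ) (hσ : 0 < σ) (hδ : 0 < δ)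
    (hδ1 : δ ≤ 1 / 6) (hη : 0 < η) (hη1 : η ≤ 1) (hg1 : 1 ≤ g)
    (hM : (2 * d + 1) ≤ η * δ * M) (hℓ : 2 * d ≤ η * δ * ℓ) (hL : 4 * ℓ + 4 < L)
    (ω : Zd d → ℝ) (hω : (fun y : T d L => σ * ω (lf y)) ∈ Good (d := d) (L := L) δ θ η g M)
    (hf : ∀ (E : ℝ) (w : T d L → ℝ),
      |∑ x, ω (lf x) * w x ^ 2| ≤ 2 * (1 / (4 * σ)) * q (J E δ) w)
    (E : ℝ) (u f : Zd d → ℝ)
    (hu : Summable fun x => u x ^ 2) (hfs : Summable fun x => f x ^ 2)
    (heq : ∀ x, ∑ i, (u (x + Pi.single i 1) + u (x - Pi.single i 1)) + σ * ω x * u x =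
      E * u x + f x) :
    u 0 ^ 2 ≤ 192 * g * (5 * (η * δ) * ∑' x, u x ^ 2 + 2 * (η * δ)⁻¹ * ∑' x, f x ^ 2) := by
  obtain ⟨t, ht⟩ : ∃ t, t = η * δ := ⟨_, rfl⟩
  have ht0 : 0 < t := by rw [ht]; positivity
  obtain ⟨v, r, h0, hvr, hv2, hr2⟩ := cutg (L := L) hd σ E t ℓ ht0 (by rw [ht]; exact hℓ) hL ω u f
    hu hfs heq
  have hSu : 0 ≤ ∑' x, u x ^ 2 := tsum_nonneg fun x => sq_nonneg _
  have hSf : 0 ≤ ∑' x, f x ^ 2 := tsum_nonneg fun x => sq_nonneg _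
  have h1 := eig E δ (2 * (1 / (4 * σ))) σ hδ (by positivity) hσ.le (by
    have : σ * (2 * (1 / (4 * σ))) = 1 / 2 := by
      field_simp
      norm_num
    linarith) (fun x => ω (lf x)) v r (hf E) hvr
  have h2 := good_bound hSI hd δ θ η g M hδ hδ1 hη hη1 hg1 hM _ hω E v r hvr h1
  rw [h0] at h2
  rw [← ht] at h2 ⊢
  have ht2 : t⁻¹ * t ^ 2 = t := by
    field_simp
  have hg0 : 0 < g := by linarith
  calc u 0 ^ 2 ≤ g * (432 * t * ∑ x, v x ^ 2 + 192 * t⁻¹ * ∑ x, r x ^ 2) := h2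
    _ ≤ g * (432 * t * ∑' x, u x ^ 2 +
        192 * t⁻¹ * (2 * (t ^ 2 * ∑' x, u x ^ 2) + 2 * ∑' x, f x ^ 2)) := by gcongr
    _ = g * (816 * t * ∑' x, u x ^ 2 + 384 * t⁻¹ * ∑' x, f x ^ 2) := by
        have e1 : 192 * t⁻¹ * (2 * (t ^ 2 * ∑' x, u x ^ 2) + 2 * ∑' x, f x ^ 2) =
            384 * (t⁻¹ * t ^ 2) * ∑' x, u x ^ 2 + 384 * t⁻¹ * ∑' x, f x ^ 2 := by ring
        rw [e1, ht2]
        ring
    _ ≤ 192 * g * (5 * t * ∑' x, u x ^ 2 + 2 * t⁻¹ * ∑' x, f x ^ 2) := by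
        have e1 : 0 ≤ g * (t * ∑' x, u x ^ 2) := by positivity
        linarith

/-- **the lattice event** -/
theorem mainB (hSI : S_SITE) (hd : 1 ≤ d) (μ : Measure ℝ) [IsProbabilityMeasure μ] (c : ℝ)
    (hμ : DomBy μ c) (σ ρ δ θ η g g1 ℓ : ℝ) (M : ℕ) (hσ : 0 < σ) (hρ : 1 ≤ ρ) (hδ : 0 < δ)
    (hδ1 : δ ≤ 1 / 6) (hη : 0 < η) (hη1 : η ≤ 1) (hg1 : 1 ≤ g) (hGB : GB d L δ g1)
    (hM : (2 * d + 1) ≤ η * δ * M) (hℓ : 2 * d ≤ η * δ * ℓ) (hL : 4 * ℓ + 4 < L)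
    (hmeas : MeasurableSet (Good (d := d) (L := L) δ θ η g M))
    (p : ℕ) (hp : p ≠ 0) (ε1 ε : ℝ)
    (hgood : (PP (T d L) (μ.map fun s => σ * s)).real (Good (d := d) (L := L) δ θ η g M)ᶜ ≤ ε1)
    (hε : (3 * ρ) ^ d * ((8 * d / δ) * ((32 * p * g1 * c ^ 2 * σ ^ 2 / δ) ^ p *
      (L : ℝ) ^ d) + ε1) ≤ ε) :
    ∃ G : Set (Zd d → ℝ), MeasurableSet G ∧
      1 - ε ≤ (Measure.infinitePi fun _ : Zd d => μ).real G ∧
      ∀ ξ ∈ G, SM1 d σ ρ (η * δ) (192 * g) ξ := by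
  obtain ⟨G1, hG1, hP1, hb⟩ := formE (d := d) (L := L) hd μ c hμ δ g1 hδ (by linarith) hGB
    (1 / (4 * σ)) (by positivity) p hp
  have hsm : Measurable fun (V : T d L → ℝ) y => σ * V y := by fun_prop
  obtain ⟨G2, hG2⟩ : ∃ G2, G2 = (fun (V : T d L → ℝ) y => σ * V y) ⁻¹'
    Good (d := d) (L := L) δ θ η g M := ⟨_, rfl⟩
  have hG2m : MeasurableSet G2 := by
    rw [hG2]
    exact hsm hmeas
  have hpm : IsProbabilityMeasure (μ.map fun s => σ * s) :=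
    Measure.isProbabilityMeasure_map (by fun_prop)
  have hP2 : (Measure.pi fun _ : T d L => μ).real G2ᶜ ≤ ε1 := by
    have e1 : PP (T d L) (μ.map fun s => σ * s) =
        (Measure.pi fun _ : T d L => μ).map (fun (V : T d L → ℝ) y => σ * V y) := by
      unfold PP
      rw [Measure.pi_map_pi (μ := fun _ : T d L => μ) (f := fun _ (s : ℝ) => σ * s)]
      intro i
      fun_prop
    rw [e1, map_measureReal_apply hsm hmeas.compl] at hgood
    rw [hG2]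
    exact hgood
  have hG : MeasurableSet (G1 ∩ G2) := hG1.inter hG2m
  have hP : (3 * ρ) ^ d * (Measure.pi fun _ : T d L => μ).real (G1 ∩ G2)ᶜ ≤ ε := by
    refine le_trans ?_ hε
    apply mul_le_mul_of_nonneg_left _ (by positivity)
    rw [Set.compl_inter]
    refine (measureReal_union_le _ _).trans (add_le_add ?_ hP2)
    refine hP1.trans ?_
    apply mul_le_mul_of_nonneg_left _ (by positivity)
    have e1 : 2 * p * g1 * δ⁻¹ * c ^ 2 / (1 / (4 * σ)) ^ 2 = 32 * p * g1 * c ^ 2 * σ ^ 2 / δ := by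
      field_simp
      ring
    rw [e1]
    exact le_refl _
  set B : Finset (Zd d) := LO.bx (0 : Zd d) ⌊ρ⌋₊ with hB
  set R : Zd d → (Zd d → ℝ) → (T d L → ℝ) := fun a ω y => ω (lf y + a) with hR
  have hRm : ∀ a, Measurable (R a) := fun a => measurable_pi_iff.2 fun y => measurable_pi_apply _
  have hPa : ∀ a, (Measure.infinitePi fun _ : Zd d => μ).real (R a ⁻¹' (G1 ∩ G2))ᶜ =
      (Measure.pi fun _ : T d L => μ).real (G1 ∩ G2)ᶜ := by
    intro a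
    have h1 : (Measure.infinitePi fun _ : Zd d => μ).real (R a ⁻¹' (G1 ∩ G2)ᶜ) =
        (Measure.pi fun _ : T d L => μ).real (G1 ∩ G2)ᶜ := by
      rw [← Gen3.law_shift (d := d) (L := L) μ a, map_measureReal_apply (hRm a) hG.compl]
    exact h1
  have hm : MeasurableSet (⋂ a ∈ B, R a ⁻¹' (G1 ∩ G2)) :=
    Finset.measurableSet_biInter _ fun a _ => hRm a hG
  refine ⟨⋂ a ∈ B, R a ⁻¹' (G1 ∩ G2), hm, ?_, ?_⟩
  · have h2 := probReal_add_probReal_compl (μ := Measure.infinitePi fun _ : Zd d => μ) hm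
    have h3 : (Measure.infinitePi fun _ : Zd d => μ).real (⋂ a ∈ B, R a ⁻¹' (G1 ∩ G2))ᶜ ≤
        (3 * ρ) ^ d * (Measure.pi fun _ : T d L => μ).real (G1 ∩ G2)ᶜ := by
      have e1 : (⋂ a ∈ B, R a ⁻¹' (G1 ∩ G2))ᶜ = ⋃ a ∈ B, (R a ⁻¹' (G1 ∩ G2))ᶜ := by
        simp only [Set.compl_iInter]
      rw [e1]
      refine (measureReal_biUnion_finset_le _ _).trans
        ((Finset.sum_le_sum fun a _ => (hPa a).le).trans ?_)
      rw [Finset.sum_const, nsmul_eq_mul, hB, LO.Em.card_bx]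
      apply mul_le_mul_of_nonneg_right _ measureReal_nonneg
      push_cast
      apply pow_le_pow_left₀ (by positivity)
      have := Nat.floor_le (show 0 ≤ ρ by linarith)
      linarith
    linarith
  · intro ξ hξ E u f hu hfs heq a ha
    have haB : a ∈ B := Gen3.norm_zd a ρ ha
    have hV : R a ξ ∈ G1 ∩ G2 := Set.mem_iInter₂.1 hξ a haB
    have hV2 := hV.2
    rw [hG2] at hV2
    have c1 := site1 (L := L) hSI hd σ δ θ η g ℓ M hσ hδ hδ1 hη hη1 hg1 hM hℓ hL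
      (fun x => ξ (x + a)) hV2 (fun E w => hb _ hV.1 E w) E
      (fun x => u (x + a)) (fun x => f (x + a)) (sum_shiftR u a hu) (sum_shiftR f a hfs) (by
        intro x
        have h1 := heq (x + a)
        have h2 : ∀ i : Fin d, x + Pi.single i 1 + a = x + a + Pi.single i 1 := fun i => by abel
        have h3 : ∀ i : Fin d, x - Pi.single i 1 + a = x + a - Pi.single i 1 := fun i => by abel
        simp only [h2, h3]
        exact h1)
    simp only [zero_add] at c1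
    rw [tsum_shiftR, tsum_shiftR] at c1
    exact c1

end Pool.Agent.W788.BK
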