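import Pool.Agent.W788.BK.Cont

/-! The mean of the local density of states. -/

set_option autoImplicit false
set_option linter.unusedSectionVars false

open scoped BigOperators Matrix
open MeasureTheory

namespace Pool.Agent.W788.BK

open Pool.Agent.W788.MFP.Four (T e NN adj K ft Op q NN_pos e_zero)

variable {d L : ℕ} [NeZero L]

theorem JJ_pos (E δ : ℝ) (hδ : 0 < δ) (k : T d L) : 0 < JJ E δ k :=
  Real.sqrt_pos.2 (by positivity)

theorem hi_sq (θ : ℝ) (Q : T d L) : hi θ Q ^ 2 = hi θ Q := by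
  unfold hi
  split_ifs <;> norm_num

theorem hi_nonneg (θ : ℝ) (Q : T d L) : 0 ≤ hi θ Q := by
  unfold hi
  split_ifs <;> norm_num

theorem hi_le_one (θ : ℝ) (Q : T d L) : hi θ Q ≤ 1 := by
  unfold hi
  split_ifs <;> norm_num

theorem cr_neg (c : ZMod L) : cr (-c) = cr c := by
  unfold cr
  rw [ZMod.stdAddChar_apply, ZMod.stdAddChar_apply, AddChar.map_neg_eq_inv]
  simp

theorem Low_neg (θ : ℝ) (Q : T d L) : Low θ (-Q) ↔ Low θ Q := by
  unfold Low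
  simp only [Pi.neg_apply, cr_neg]

theorem hi_neg (θ : ℝ) (Q : T d L) : hi θ (-Q) = hi θ Q := by
  unfold hi
  by_cases h : Low θ Q
  · rw [if_pos h, if_pos ((Low_neg θ Q).2 h)]
  · rw [if_neg h, if_neg (fun h2 => h ((Low_neg θ Q).1 h2))]

theorem AA_normSq (E δ θ : ℝ) (hδ : 0 < δ) (y k p : T d L) :
    AA E δ θ y k p * AA E δ θ y p k =
      (((NN d L)⁻¹ ^ 2 * hi θ (k - p) * (JJ E δ k * JJ E δ p)⁻¹ : ℝ) : ℂ) := by
  unfold AA
  simp only [Matrix.of_apply]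
  have h1 : hi θ (p - k) = hi θ (k - p) := by
    rw [← hi_neg, neg_sub]
  have h2 : e (p - k) y = (starRingEnd ℂ) (e (k - p) y) := by
    rw [← Pool.Agent.W788.MFP.Four.e_neg_left, neg_sub]
  have h3 := Pool.Agent.W788.MFP.Four.e_normSq (k - p) y
  have h4 : (Real.sqrt (JJ E δ k))⁻¹ * (Real.sqrt (JJ E δ k))⁻¹ = (JJ E δ k)⁻¹ := by
    rw [← mul_inv, Real.mul_self_sqrt (JJ_pos E δ hδ k).le]
  have h5 : (Real.sqrt (JJ E δ p))⁻¹ * (Real.sqrt (JJ E δ p))⁻¹ = (JJ E δ p)⁻¹ := by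
    rw [← mul_inv, Real.mul_self_sqrt (JJ_pos E δ hδ p).le]
  rw [h1, h2]
  have h6 := hi_sq θ (k - p)
  have h7 : ((((NN d L)⁻¹ * hi θ (k - p) *
      ((Real.sqrt (JJ E δ k))⁻¹ * (Real.sqrt (JJ E δ p))⁻¹) : ℝ) : ℂ) * e (k - p) y) *
      ((((NN d L)⁻¹ * hi θ (k - p) *
      ((Real.sqrt (JJ E δ p))⁻¹ * (Real.sqrt (JJ E δ k))⁻¹) : ℝ) : ℂ) *
        (starRingEnd ℂ) (e (k - p) y)) =
      (((NN d L)⁻¹ ^ 2 * hi θ (k - p) ^ 2 *
        (((Real.sqrt (JJ E δ k))⁻¹ * (Real.sqrt (JJ E δ k))⁻¹) *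
        ((Real.sqrt (JJ E δ p))⁻¹ * (Real.sqrt (JJ E δ p))⁻¹)) : ℝ) : ℂ) *
        (e (k - p) y * (starRingEnd ℂ) (e (k - p) y)) := by
    push_cast
    ring
  rw [h7, h3, h6, h4, h5, mul_one, mul_inv]

/-- the diagonal of the self-energy of a diagonal matrix -/
theorem Psi_diag (E δ θ : ℝ) (hδ : 0 < δ) (B : Matrix (T d L) (T d L) ℂ)
    (hB : ∀ k p, k ≠ p → B k p = 0) (k : T d L) :
    Psi (AA (d := d) (L := L) E δ θ) B k k =
      ∑ p, (((NN d L)⁻¹ * hi θ (k - p) * (JJ E δ k * JJ E δ p)⁻¹ : ℝ) : ℂ) * B p p := by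
  unfold Psi
  rw [Matrix.sum_apply]
  have h1 : ∀ y : T d L, (AA E δ θ y * B * AA E δ θ y : Matrix (T d L) (T d L) ℂ) k k =
      ∑ p, (((NN d L)⁻¹ ^ 2 * hi θ (k - p) * (JJ E δ k * JJ E δ p)⁻¹ : ℝ) : ℂ) * B p p := by
    intro y
    rw [Matrix.mul_apply]
    refine Finset.sum_congr rfl fun p _ => ?_
    have h2 : (AA E δ θ y * B : Matrix (T d L) (T d L) ℂ) k p = AA E δ θ y k p * B p p := by
      rw [Matrix.mul_apply, Finset.sum_eq_single p]
      · intro l _ hl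
        rw [hB l p hl, mul_zero]
      · intro h
        exact absurd (Finset.mem_univ p) h
    rw [h2, ← AA_normSq E δ θ hδ y k p]
    ring
  simp only [h1]
  rw [Finset.sum_const, nsmul_eq_mul, Finset.mul_sum]
  refine Finset.sum_congr rfl fun p _ => ?_
  have h3 : ((Finset.univ : Finset (T d L)).card : ℂ) = ((NN d L : ℝ) : ℂ) := by
    rw [Finset.card_univ, ← Pool.Agent.W788.MFP.Four.card_T]
    push_cast
    rfl
  rw [h3]
  have hN : ((NN d L : ℝ) : ℂ) ≠ 0 := by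
    exact_mod_cast (NN_pos (d := d) (L := L)).ne'
  push_cast
  field_simp

/-- **the mean of the local density of states** -/
theorem mean_le (hTH : S_THIRD) (hFL : S_FLUCT) (hIN : S_INV) (hMB : S_MB)
    (E δ θ η a v2 Q β s2 g : ℝ) (hδ : 0 < δ) (hη : 0 < η) (hη1 : η ≤ 1)
    (hadm : Adm (D0 E δ) (AA (d := d) (L := L) E δ θ) a v2 Q)
    (μ : Measure ℝ) [IsProbabilityMeasure μ] (hβ : 0 < β) (hμ : ∀ᵐ s ∂μ, |s| ≤ β)
    (h0 : ∫ s, s ∂μ = 0) (h2 : ∫ s, s ^ 2 ∂μ = s2) (hs2 : 0 ≤ s2)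
    (hβa : β * a ≤ η) (hβv : β ^ 2 * v2 ≤ 1)
    (hε : 4 * β ^ 3 * a * v2 / η ^ 3 + s2 * (2 * β * Q * Real.sqrt v2 / η ^ 4) ≤ 1 / 2)
    (hg : ∀ E' : ℝ, ∑ k : T d L, (JJ E' (η * δ) k)⁻¹ ≤ g * NN d L)
    (hlow : s2 * (∑ P : T d L, (1 - hi θ P)) ≤ η ^ 2 * δ ^ 2 / 4 * NN d L) :
    ∫ V, (star (w0 (d := d) (L := L) E δ) ⬝ᵥ
      (RR (D0 E δ) (AA E δ θ) η V *ᵥ w0 E δ)).im ∂(PP (T d L) μ) ≤ 2 * g := by
  obtain ⟨A, hA⟩ : ∃ A, A = AA (d := d) (L := L) E δ θ := ⟨_, rfl⟩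
  obtain ⟨M, hM⟩ : ∃ M, M = MM (D0 E δ) A η μ := ⟨_, rfl⟩
  rw [← hA] at hadm ⊢
  have hXh := hadm.hX0
  have hAh := hadm.hA
  have hdiag : ∀ k p, k ≠ p → M k p = 0 := by
    intro k p hkp
    rw [hM, hA]
    exact hIN d L E δ θ η μ hδ hη k p hkp
  -- the equation
  have heq : ∀ k, ‖((((adj k - E) / JJ E δ k : ℝ) : ℂ) - (η : ℂ) * Complex.I) * M k k -
      (s2 : ℂ) * (∑ p, (((NN d L)⁻¹ * hi θ (k - p) * (JJ E δ k * JJ E δ p)⁻¹ : ℝ) : ℂ) * M p p) *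
        M k k - 1‖ ≤ 1 / 2 := by
    intro k
    have e1 := hTH (T d L) (T d L) _ _ _ _ _ hadm μ β s2 η hβ hμ h0 h2 hη hη1 hβa
      (Pi.single k 1) (Pi.single k 1) (nsq_single k) (nsq_single k)
    have e2 := hFL (T d L) (T d L) _ _ _ _ _ hadm μ β η hβ hμ hη hη1 hβv
      (Pi.single k 1) (Pi.single k 1) (nsq_single k) (nsq_single k)
    rw [form_single] at e1 e2
    rw [← hM] at e1 e2
    have e3 : ((D0 E δ - ((η : ℂ) * Complex.I) • (1 : Matrix (T d L) (T d L) ℂ)) * M :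
        Matrix (T d L) (T d L) ℂ) k k =
        ((((adj k - E) / JJ E δ k : ℝ) : ℂ) - (η : ℂ) * Complex.I) * M k k := by
      have e4 : D0 E δ - ((η : ℂ) * Complex.I) • (1 : Matrix (T d L) (T d L) ℂ) =
          Matrix.diagonal fun k => ((((adj k - E) / JJ E δ k : ℝ) : ℂ) -
            (η : ℂ) * Complex.I) := by
        unfold D0
        rw [Matrix.smul_one_eq_diagonal, ← Matrix.diagonal_sub]
      rw [e4, Matrix.diagonal_mul]
    have e5 : (Psi A M * M : Matrix (T d L) (T d L) ℂ) k k = (∑ p, (((NN d L)⁻¹ * hi θ (k - p) *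
        (JJ E δ k * JJ E δ p)⁻¹ : ℝ) : ℂ) * M p p) * M k k := by
      rw [Matrix.mul_apply, Finset.sum_eq_single k]
      · rw [hA, Psi_diag E δ θ hδ M hdiag k]
      · intro l _ hl
        rw [hdiag l k hl, mul_zero]
      · intro h
        exact absurd (Finset.mem_univ k) h
    rw [Matrix.sub_apply, Matrix.sub_apply, Matrix.smul_apply, Matrix.one_apply_eq, e3,
      smul_eq_mul] at e1
    rw [Matrix.sub_apply, e5] at e2
    obtain ⟨S, hS⟩ : ∃ S, S = (∑ p, (((NN d L)⁻¹ * hi θ (k - p) *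
        (JJ E δ k * JJ E δ p)⁻¹ : ℝ) : ℂ) * M p p) * M k k := ⟨_, rfl⟩
    rw [← hS] at e2
    have e6 : ((((adj k - E) / JJ E δ k : ℝ) : ℂ) - (η : ℂ) * Complex.I) * M k k -
        (s2 : ℂ) * (∑ p, (((NN d L)⁻¹ * hi θ (k - p) *
          (JJ E δ k * JJ E δ p)⁻¹ : ℝ) : ℂ) * M p p) * M k k - 1 =
        (((((adj k - E) / JJ E δ k : ℝ) : ℂ) - (η : ℂ) * Complex.I) * M k k -
          (s2 : ℂ) * SE (D0 E δ) A η μ k k - 1) +
        (s2 : ℂ) * (SE (D0 E δ) A η μ k k - S) := by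
      rw [hS]
      ring
    rw [e6]
    refine (norm_add_le _ _).trans (le_trans (add_le_add e1 ?_) hε)
    rw [norm_mul, Complex.norm_real, Real.norm_of_nonneg hs2]
    exact mul_le_mul_of_nonneg_left e2 hs2
  have him : ∀ k, 0 ≤ (M k k).im := by
    intro k
    have e1 : M k k = ∫ V, RR (D0 E δ) A η V k k ∂(PP (T d L) μ) := by
      rw [hM]
      rfl
    have e2 := integrable_RR hXh hAh hη μ k k
    have e3 : (M k k).im = ∫ V, (RR (D0 E δ) A η V k k).im ∂(PP (T d L) μ) := by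
      rw [e1]
      have := Complex.imCLM.integral_comp_comm e2
      simp only [Complex.imCLM_apply] at this
      exact this.symm
    rw [e3]
    apply integral_nonneg
    intro V
    have e4 := (ward hXh hAh hη V (Pi.single k 1)).1
    rw [form_single] at e4
    simp only [Pi.zero_apply]
    rw [e4]
    exact mul_nonneg hη.le (nsq_nonneg _)
  have hbd : ∀ k, ‖M k k‖ ≤ η⁻¹ := by
    intro k
    have e1 : M k k = ∫ V, RR (D0 E δ) A η V k k ∂(PP (T d L) μ) := by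
      rw [hM]
      rfl
    rw [e1]
    refine (norm_integral_le_of_norm_le_const (C := η⁻¹)
      (Filter.Eventually.of_forall fun V => entry_bd hXh hAh hη V k k)).trans ?_
    rw [probReal_univ, mul_one]
  have hm := hMB d L E δ θ η s2 g (1 / 2) (fun k => M k k) hδ hη hs2 le_rfl him hbd hg hlow heq
  -- the mean
  have hint := integral_form hXh hAh hη μ (w0 (d := d) (L := L) E δ) (w0 E δ)
  have e1 : ∫ V, (star (w0 (d := d) (L := L) E δ) ⬝ᵥ
      (RR (D0 E δ) A η V *ᵥ w0 E δ)).im ∂(PP (T d L) μ) =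
      (star (w0 (d := d) (L := L) E δ) ⬝ᵥ (M *ᵥ w0 E δ)).im := by
    have := Complex.imCLM.integral_comp_comm hint.1
    simp only [Complex.imCLM_apply] at this
    rw [this, hint.2, hM]
  have e2 : star (w0 (d := d) (L := L) E δ) ⬝ᵥ (M *ᵥ w0 E δ) =
      ((NN d L : ℝ) : ℂ)⁻¹ * ∑ k, ((JJ E δ k : ℝ) : ℂ)⁻¹ * M k k := by
    unfold dotProduct
    rw [Finset.mul_sum]
    refine Finset.sum_congr rfl fun k _ => ?_
    have e3 : (M *ᵥ w0 (d := d) (L := L) E δ) k = M k k * w0 E δ k := by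
      unfold Matrix.mulVec dotProduct
      rw [Finset.sum_eq_single k]
      · intro l _ hl
        simp only
        rw [hdiag k l hl.symm, zero_mul]
      · intro h
        exact absurd (Finset.mem_univ k) h
    rw [e3, Pi.star_apply]
    unfold w0
    rw [RCLike.star_def, Complex.conj_ofReal]
    have h4 : (Real.sqrt (JJ E δ k))⁻¹ * (Real.sqrt (JJ E δ k))⁻¹ = (JJ E δ k)⁻¹ := by
      rw [← mul_inv, Real.mul_self_sqrt (JJ_pos E δ hδ k).le]
    have h5 : (Real.sqrt (NN d L))⁻¹ * (Real.sqrt (NN d L))⁻¹ = (NN d L)⁻¹ := by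
      rw [← mul_inv, Real.mul_self_sqrt (NN_pos (d := d) (L := L)).le]
    calc (((Real.sqrt (NN d L))⁻¹ * (Real.sqrt (JJ E δ k))⁻¹ : ℝ) : ℂ) *
          (M k k * (((Real.sqrt (NN d L))⁻¹ * (Real.sqrt (JJ E δ k))⁻¹ : ℝ) : ℂ)) =
        ((((Real.sqrt (NN d L))⁻¹ * (Real.sqrt (NN d L))⁻¹) *
          ((Real.sqrt (JJ E δ k))⁻¹ * (Real.sqrt (JJ E δ k))⁻¹) : ℝ) : ℂ) * M k k := by
          push_cast
          ring
      _ = _ := by
          rw [h4, h5]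
          push_cast
          ring
  rw [e1, e2]
  exact (Complex.abs_im_le_norm _).trans' (le_abs_self _) |>.trans hm

end Pool.Agent.W788.BK
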