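import Mathlib

/-! Elementary asymptotics. -/

set_option autoImplicit false

open Filter Real

namespace Pool.Agent.W788.BK.Num

theorem ev1 (C α : ℝ) (k : ℕ) (hα : 0 < α) : ∀ᶠ y : ℝ in atTop, C * y ^ k ≤ exp (α * y) := by
  have h1 := (isLittleO_pow_exp_pos_mul_atTop (k := k) hα).def
    (show (0 : ℝ) < 1 / (|C| + 1) by positivity)
  filter_upwards [h1, eventually_ge_atTop 0] with y hy hy0
  rw [norm_of_nonneg (by positivity), norm_of_nonneg (exp_pos _).le] at hy
  calc C * y ^ k ≤ (|C| + 1) * y ^ k := by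
        apply mul_le_mul_of_nonneg_right _ (by positivity)
        linarith [le_abs_self C]
    _ ≤ (|C| + 1) * (1 / (|C| + 1) * exp (α * y)) := by gcongr
    _ = _ := by field_simp

/-- with a decaying factor -/
theorem ev2 (C α β : ℝ) (k : ℕ) (h : α < β) :
    ∀ᶠ y : ℝ in atTop, C * y ^ k * exp (α * y) ≤ exp (β * y) := by
  filter_upwards [ev1 C (β - α) k (by linarith)] with y hy
  calc C * y ^ k * exp (α * y) ≤ exp ((β - α) * y) * exp (α * y) := by gcongr
    _ = _ := by
      rw [← exp_add]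
      congr 1
      ring

theorem ev3 (C α β : ℝ) (h : α < β) : ∀ᶠ y : ℝ in atTop, C * exp (α * y) ≤ exp (β * y) := by
  filter_upwards [ev2 C α β 0 h] with y hy
  simpa using hy

/-- double exponentials -/
theorem ev4 (K c α : ℝ) (hc : 0 < c) (hα : 1 / 100 < α) :
    ∀ᶠ y : ℝ in atTop, K * (exp (y / 100) + y + 1) ≤ c * exp (α * y) := by
  filter_upwards [ev3 (|K| * 3 / c) (1 / 100) α hα, ev3 1 0 (1 / 100) (by norm_num),
    ev1 1 (1 / 100) 1 (by norm_num), eventually_ge_atTop 0] with y h1 h2 h3 h0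
  have e1 : y / 100 = 1 / 100 * y := by ring
  rw [e1]
  simp only [zero_mul, exp_zero, mul_one, pow_one, one_mul] at h2 h3
  calc K * (exp (1 / 100 * y) + y + 1) ≤ |K| * (exp (1 / 100 * y) + y + 1) := by
        apply mul_le_mul_of_nonneg_right (le_abs_self K)
        positivity
    _ ≤ |K| * (exp (1 / 100 * y) + exp (1 / 100 * y) + exp (1 / 100 * y)) := by gcongr
    _ = c * (|K| * 3 / c * exp (1 / 100 * y)) := by
        field_simp
        ring
    _ ≤ c * exp (α * y) := by gcongr

end Pool.Agent.W788.BK.Num
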