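import Pool.Agent.W788.BK.Num

/-! The numerical conditions. -/

set_option autoImplicit false

open Filter

namespace Pool.Agent.W788.BK.Num

/-- the numerical conditions -/
structure NumOK (d : ℕ) (b c A1 CQ y : ℝ) : Prop where
  y1 : 1 ≤ y
  n1 : 6 * Real.exp (-(79 / 40) * y) ≤ 1
  n3 : (8 * d + 5) * Real.exp (17 / 8 * y) ≤ Real.exp (6 * y)
  n4 : 125 * Real.exp (237 / 40 * y) ≤ Real.exp (12 * y)
  n5 : 2 * Real.exp (23 / 30 * y) ≤ Real.exp (6 * y)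
  n6 : b * A1 * y * Real.exp (-1 * y) ≤ Real.exp (-(3 / 20) * y)
  n7 : b ^ 2 * A1 * y * Real.exp (-(1 / 40) * y) ≤ 1
  n8 : 16 * b ^ 3 * A1 ^ 2 * y ^ 2 * Real.exp (-(23 / 40) * y) ≤ 1
  n9 : 64 * b ^ 3 * CQ * A1 * y ^ 3 * Real.exp (-(1 / 24) * y) ≤ 1
  n10 : 8 * b ^ 2 * Real.exp (-(1 / 20) * y) ≤ 1
  n11 : 32 * b ^ 2 * CQ * y ^ 2 * Real.exp (-(79 / 240) * y) ≤ Real.exp (-(3 / 10) * y)
  n12 : 4 * b ^ 2 * A1 ^ 2 * y ^ 2 * Real.exp (-(7 / 5) * y) ≤ Real.exp (-(3 / 10) * y)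
  n13 : 4 * Real.exp (-(3 / 20) * y) ≤ 1
  n14 : 192 * A1 * c ^ 2 * y * Real.exp (-(1 / 200) * y) ≤ 1
  n15 : 2 * Real.exp (6 * y) ≤ Real.exp (7 * y)
  n16 : (12 * d + 12) * (Real.exp (y / 100) + y + 1) ≤ Real.exp (1 / 50 * y)
  n17 : (12 * d + 12) * (Real.exp (y / 100) + y + 1) ≤ 1 / (4 * b ^ 2) * Real.exp (1 / 20 * y)
  n18 : (12 * d + 12) * (Real.exp (y / 100) + y + 1) ≤ 1 / 4 * Real.exp (3 / 20 * y)

theorem numOK (d : ℕ) (b c A1 CQ : ℝ) (hb : 0 < b) : ∀ᶠ y : ℝ in atTop, NumOK d b c A1 CQ y := by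
  filter_upwards [eventually_ge_atTop 1, ev2 6 (-(79 / 40)) 0 0 (by norm_num),
    ev2 (8 * d + 5) (17 / 8) 6 0 (by norm_num), ev2 125 (237 / 40) 12 0 (by norm_num),
    ev2 2 (23 / 30) 6 0 (by norm_num), ev2 (b * A1) (-1) (-(3 / 20)) 1 (by norm_num),
    ev2 (b ^ 2 * A1) (-(1 / 40)) 0 1 (by norm_num),
    ev2 (16 * b ^ 3 * A1 ^ 2) (-(23 / 40)) 0 2 (by norm_num),
    ev2 (64 * b ^ 3 * CQ * A1) (-(1 / 24)) 0 3 (by norm_num),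
    ev2 (8 * b ^ 2) (-(1 / 20)) 0 0 (by norm_num),
    ev2 (32 * b ^ 2 * CQ) (-(79 / 240)) (-(3 / 10)) 2 (by norm_num),
    ev2 (4 * b ^ 2 * A1 ^ 2) (-(7 / 5)) (-(3 / 10)) 2 (by norm_num),
    ev2 4 (-(3 / 20)) 0 0 (by norm_num),
    ev2 (192 * A1 * c ^ 2) (-(1 / 200)) 0 1 (by norm_num),
    ev2 2 6 7 0 (by norm_num),
    ev4 (12 * d + 12) 1 (1 / 50) (by norm_num) (by norm_num),
    ev4 (12 * d + 12) (1 / (4 * b ^ 2)) (1 / 20) (by positivity) (by norm_num),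
    ev4 (12 * d + 12) (1 / 4) (3 / 20) (by norm_num) (by norm_num)] with
    y h1 h2 h3 h4 h5 h6 h7 h8 h9 h10 h11 h12 h13 h14 h15 h16 h17 h18
  simp only [pow_zero, mul_one, pow_one, zero_mul, Real.exp_zero] at h2 h3 h4 h5 h6 h7 h8 h9 h10 h13 h14 h15 h16
  constructor <;> first | assumption | linarith

end Pool.Agent.W788.BK.Num
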